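import Pool.Agent.Helper52.KP.StM

/-!
# Project KP, module BER: convergence of Bergman functions in `L¹`
-/

set_option autoImplicit false

namespace Pool.Agent.Helper13.KP

open Pool.Agent.Helper52.KP MeasureTheory Filter
open scoped ContDiff ComplexOrder Topology ComplexConjugate

variable {m : ℕ}

/-! ### Products of square integrable functions -/

private theorem prod_int {U : Set (Fin m → ℂ)} {ψ : (Fin m → ℂ) → ℝ} (hU : MeasurableSet U)
    (hψ : ContinuousOn ψ U) {f g : (Fin m → ℂ) → ℂ} (hf : L2 U ψ f) (hg : L2 U ψ g) :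
    IntegrableOn (fun z => f z * star (g z) * (Real.exp (-ψ z) : ℂ)) U := by
  have he : AEStronglyMeasurable (fun z => ((Real.exp (-ψ z) : ℝ) : ℂ)) (volume.restrict U) :=
    (Complex.continuous_ofReal.comp_continuousOn
      (Real.continuous_exp.comp_continuousOn hψ.neg)).aestronglyMeasurable hU
  have hm : AEStronglyMeasurable (fun z => f z * star (g z) * ((Real.exp (-ψ z) : ℝ) : ℂ))
      (volume.restrict U) :=
    (hf.1.mul hg.1.star).mul he
  have hb : IntegrableOn (fun z => (1 / 2) * (‖f z‖ ^ 2 * Real.exp (-ψ z)) +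
      (1 / 2) * (‖g z‖ ^ 2 * Real.exp (-ψ z))) U :=
    (hf.2.const_mul _).add (hg.2.const_mul _)
  refine hb.mono' hm (Eventually.of_forall fun z => ?_)
  rw [norm_mul, norm_mul, norm_star, Complex.norm_real, Real.norm_of_nonneg (Real.exp_pos _).le]
  have h1 : ‖f z‖ * ‖g z‖ ≤ (1 / 2) * ‖f z‖ ^ 2 + (1 / 2) * ‖g z‖ ^ 2 := by
    nlinarith [sq_nonneg (‖f z‖ - ‖g z‖)]
  calc ‖f z‖ * ‖g z‖ * Real.exp (-ψ z) ≤
      ((1 / 2) * ‖f z‖ ^ 2 + (1 / 2) * ‖g z‖ ^ 2) * Real.exp (-ψ z) :=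
        mul_le_mul_of_nonneg_right h1 (Real.exp_pos _).le
    _ = _ := by ring

private theorem inn_self (U : Set (Fin m → ℂ)) (ψ : (Fin m → ℂ) → ℝ) (f : (Fin m → ℂ) → ℂ) :
    inn U ψ f f = (nrm U ψ f : ℂ) := by
  unfold inn nrm
  rw [← integral_complex_ofReal]
  refine integral_congr_ae (Eventually.of_forall fun z => ?_)
  simp only
  have h : f z * star (f z) = ((‖f z‖ ^ 2 : ℝ) : ℂ) := by
    rw [← Complex.normSq_eq_norm_sq, Complex.normSq_eq_conj_mul_self, mul_comm]; rfl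
  rw [h]
  push_cast
  rfl

private theorem nrm_nn (U : Set (Fin m → ℂ)) (ψ : (Fin m → ℂ) → ℝ) (f : (Fin m → ℂ) → ℂ) :
    0 ≤ nrm U ψ f := integral_nonneg fun z => by positivity

section cone

variable {C : Cone} (hC : Good C)

include hC

private theorem hUo : IsOpen C.U :=
  isOpen_ne_fun (MvPolynomial.continuous_eval C.Δ) continuous_const

private theorem expand (hMOM : StMOM) {D N : ℕ} {s : Fin N → MvPolynomial (Fin C.m) ℂ}
    (hs : ONB C D s) (c : Fin N → ℂ) :
    nrm C.U C.u (fun z => ev (∑ i, c i • s i) z * ev C.J z) = ∑ i, ‖c i‖ ^ 2 := by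
  have hUm := (hUo hC).measurableSet
  have hsR : ∀ i, s i ∈ C.R D := fun i => by
    rw [← hs.span]; exact Submodule.subset_span ⟨i, rfl⟩
  have hL : ∀ i, L2 C.U C.u (fun z => ev (s i) z * ev C.J z) := fun i =>
    (hMOM C hC).2.2.2 D (s i) (hsR i)
  have hI : ∀ i j, IntegrableOn (fun z => (ev (s i) z * ev C.J z) *
      star (ev (s j) z * ev C.J z) * (Real.exp (-C.u z) : ℂ)) C.U := fun i j =>
    prod_int hUm hC.usm.continuousOn (hL i) (hL j)
  have h1 : inn C.U C.u (fun z => ev (∑ i, c i • s i) z * ev C.J z)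
      (fun z => ev (∑ i, c i • s i) z * ev C.J z) = ∑ i, ∑ j, c i * star (c j) *
        inn C.U C.u (fun z => ev (s i) z * ev C.J z) (fun z => ev (s j) z * ev C.J z) := by
    unfold inn
    have e1 : ∀ i j, c i * star (c j) * (∫ z in C.U, (ev (s i) z * ev C.J z) *
        star (ev (s j) z * ev C.J z) * (Real.exp (-C.u z) : ℂ)) =
        ∫ z in C.U, c i * star (c j) * ((ev (s i) z * ev C.J z) *
        star (ev (s j) z * ev C.J z) * (Real.exp (-C.u z) : ℂ)) := fun i j =>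
      (integral_const_mul _ _).symm
    simp_rw [e1]
    have e2 : ∀ i, ∑ j, ∫ z in C.U, c i * star (c j) * ((ev (s i) z * ev C.J z) *
        star (ev (s j) z * ev C.J z) * (Real.exp (-C.u z) : ℂ)) =
        ∫ z in C.U, ∑ j, c i * star (c j) * ((ev (s i) z * ev C.J z) *
        star (ev (s j) z * ev C.J z) * (Real.exp (-C.u z) : ℂ)) := fun i =>
      (integral_finsetSum _ fun j _ => (hI i j).const_mul _).symm
    simp_rw [e2]
    rw [← integral_finsetSum _ fun i _ => integrable_finsetSum _ fun j _ => (hI i j).const_mul _]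
    refine integral_congr_ae (Eventually.of_forall fun z => ?_)
    simp only
    have e3 : ev (∑ i, c i • s i) z = ∑ i, c i * ev (s i) z := by
      simp only [ev, map_sum, MvPolynomial.smul_eval]
    rw [e3, Finset.sum_mul, star_sum, Finset.sum_mul_sum, Finset.sum_mul]
    refine Finset.sum_congr rfl fun i _ => ?_
    rw [Finset.sum_mul]
    refine Finset.sum_congr rfl fun j _ => ?_
    simp only [star_mul']
    ring
  have h2 : ∀ i, ∑ j, c i * star (c j) *
      inn C.U C.u (fun z => ev (s i) z * ev C.J z) (fun z => ev (s j) z * ev C.J z) =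
      ((‖c i‖ ^ 2 : ℝ) : ℂ) := by
    intro i
    rw [Finset.sum_eq_single i]
    · rw [hs.on, if_pos rfl, mul_one]
      rw [← Complex.normSq_eq_norm_sq, Complex.normSq_eq_conj_mul_self, mul_comm]; rfl
    · intro j _ hj
      rw [hs.on, if_neg (fun h => hj h.symm), mul_zero]
    · intro h; exact absurd (Finset.mem_univ _) h
  rw [Finset.sum_congr rfl fun i _ => h2 i, inn_self, ← Complex.ofReal_sum] at h1
  exact Complex.ofReal_injective h1

private theorem onb_norm (hMOM : StMOM) {D N : ℕ} {s : Fin N → MvPolynomial (Fin C.m) ℂ}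
    (hs : ONB C D s) (i : Fin N) : nrm C.U C.u (fun z => ev (s i) z * ev C.J z) = 1 := by
  have h := hs.on i i
  rw [if_pos rfl, inn_self] at h
  exact_mod_cast h

private theorem onb_card (hMOM : StMOM) {D N : ℕ} {s : Fin N → MvPolynomial (Fin C.m) ℂ}
    (hs : ONB C D s) : Module.finrank ℂ (C.R D) = N := by
  have hli : LinearIndependent ℂ s := by
    rw [Fintype.linearIndependent_iff]
    intro c hc i
    have h1 := expand hC hMOM hs c
    rw [hc] at h1
    have h2 : nrm C.U C.u (fun z => ev (0 : MvPolynomial (Fin C.m) ℂ) z * ev C.J z) = 0 := by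
      unfold nrm; simp
    rw [h2] at h1
    have h3 := (Finset.sum_eq_zero_iff_of_nonneg (fun i _ => sq_nonneg ‖c i‖)).1 h1.symm i
      (Finset.mem_univ _)
    exact norm_eq_zero.1 (pow_eq_zero_iff (two_ne_zero) |>.1 h3)
  rw [← hs.span, finrank_span_eq_card hli, Fintype.card_fin]

private theorem onb_ext (hMOM : StMOM) {D N : ℕ} {s : Fin N → MvPolynomial (Fin C.m) ℂ}
    (hs : ONB C D s) {f : MvPolynomial (Fin C.m) ℂ} (hf : f ∈ C.R D) (z : Fin C.m → ℂ) :
    ‖ev f z‖ ^ 2 ≤ nrm C.U C.u (fun z => ev f z * ev C.J z) * ∑ i, ‖ev (s i) z‖ ^ 2 := by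
  rw [← hs.span, Submodule.mem_span_range_iff_exists_fun] at hf
  obtain ⟨c, rfl⟩ := hf
  rw [expand hC hMOM hs c]
  have e3 : ev (∑ i, c i • s i) z = ∑ i, c i * ev (s i) z := by
    simp only [ev, map_sum, MvPolynomial.smul_eval]
  rw [e3]
  calc ‖∑ i, c i * ev (s i) z‖ ^ 2 ≤ (∑ i, ‖c i‖ * ‖ev (s i) z‖) ^ 2 := by
        refine pow_le_pow_left₀ (norm_nonneg _) ?_ 2
        refine (norm_sum_le _ _).trans (le_of_eq ?_)
        exact Finset.sum_congr rfl fun i _ => norm_mul _ _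
    _ ≤ _ := Finset.sum_mul_sq_le_sq_mul_sq _ _ _

/-! ### The potential, extended by one -/

open Classical in
/-- the potential on `U`, one off `U` -/
private noncomputable def uu (C : Cone) : (Fin C.m → ℂ) → ℝ := C.U.piecewise C.u (fun _ => 1)

omit hC in
private theorem uu_eq {z : Fin C.m → ℂ} (hz : z ∈ C.U) : uu C z = C.u z := by
  classical
  unfold uu
  exact Set.piecewise_eq_of_mem _ _ _ hz

private theorem uu_meas : Measurable (uu C) := by
  classical
  unfold uu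
  exact hC.usm.continuousOn.measurable_piecewise continuousOn_const (hUo hC).measurableSet

private theorem u_pos {z : Fin C.m → ℂ} (hz : z ∈ C.U) : 0 < C.u z := by
  obtain ⟨a, b, ha, hab⟩ := hC.ubd
  exact lt_of_lt_of_le (mul_pos ha (hC.Xpos z hz)) (hab z hz).1

private theorem S_eq : {z | z ∈ C.U ∧ uu C z < 1} = {z | z ∈ C.U ∧ C.u z < 1} := by
  ext z
  constructor
  · rintro ⟨h1, h2⟩
    exact ⟨h1, by rwa [uu_eq h1] at h2⟩
  · rintro ⟨h1, h2⟩
    exact ⟨h1, by rwa [uu_eq h1]⟩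

private theorem S_meas : MeasurableSet {z | z ∈ C.U ∧ C.u z < 1} := by
  rw [← S_eq hC]
  exact (hUo hC).measurableSet.inter (measurableSet_lt (uu_meas hC) measurable_const)

private theorem m_pos : 0 < C.m := by
  have h1 := hC.hm
  have h2 := hC.hn
  omega

/-- the function `∑ ‖s_j‖² / u^{2D}` -/
private noncomputable def gg (C : Cone) (D : ℕ) {N : ℕ} (s : Fin N → MvPolynomial (Fin C.m) ℂ)
    (z : Fin C.m → ℂ) : ℝ := (∑ j, ‖ev (s j) z‖ ^ 2) / uu C z ^ (2 * D)

private theorem gg_meas (D : ℕ) {N : ℕ} (s : Fin N → MvPolynomial (Fin C.m) ℂ) :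
    Measurable (gg C D s) := by
  unfold gg
  refine Measurable.div ?_ ((uu_meas hC).pow_const _)
  refine Finset.measurable_sum _ fun j _ => ?_
  exact ((MvPolynomial.continuous_eval (s j)).norm.pow 2).measurable

omit hC in
private theorem lint_gam (k D : ℕ) (hk : 0 < k) :
    ∫⁻ s in Set.Ioi (0 : ℝ), ENNReal.ofReal (s ^ (2 * D) * Real.exp (-s)) *
      ENNReal.ofReal (((k : ℝ) + 0) / 1 * s ^ (((k : ℝ) + 0) / 1 - 1)) =
    ENNReal.ofReal (k * (2 * D + k - 1).factorial) := by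
  have h1 : ∀ s ∈ Set.Ioi (0 : ℝ), ENNReal.ofReal (s ^ (2 * D) * Real.exp (-s)) *
      ENNReal.ofReal (((k : ℝ) + 0) / 1 * s ^ (((k : ℝ) + 0) / 1 - 1)) =
      ENNReal.ofReal (k * (Real.exp (-s) * s ^ (((2 * D + k : ℕ) : ℝ) - 1))) := by
    intro s hs
    have hs0 : (0 : ℝ) < s := hs
    rw [← ENNReal.ofReal_mul (by positivity)]
    congr 1
    rw [add_zero, div_one]
    have e1 : s ^ (((2 * D + k : ℕ) : ℝ) - 1) = s ^ (2 * D) * s ^ ((k : ℝ) - 1) := by
      rw [← Real.rpow_natCast s (2 * D), ← Real.rpow_add hs0]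
      congr 1
      push_cast
      ring
    rw [e1]
    ring
  rw [setLIntegral_congr_fun measurableSet_Ioi h1]
  have hpos : (0 : ℝ) < ((2 * D + k : ℕ) : ℝ) := by
    have : 0 < 2 * D + k := by omega
    exact_mod_cast this
  have h2 : Integrable (fun s : ℝ => (k : ℝ) * (Real.exp (-s) * s ^ (((2 * D + k : ℕ) : ℝ) - 1)))
      (volume.restrict (Set.Ioi (0 : ℝ))) := (Real.GammaIntegral_convergent hpos).const_mul _
  rw [← ofReal_integral_eq_lintegral_ofReal h2]
  · congr 1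
    rw [integral_const_mul, ← Real.Gamma_eq_integral hpos]
    congr 1
    have h3 : 2 * D + k = (2 * D + k - 1) + 1 := by omega
    rw [h3, Nat.cast_add, Nat.cast_one, Real.Gamma_nat_eq_factorial]
    rfl
  · rw [Filter.EventuallyLE, ae_restrict_iff' measurableSet_Ioi]
    refine Eventually.of_forall fun s hs => ?_
    have hs0 : (0 : ℝ) < s := hs
    simp only [Pi.zero_apply]
    positivity

private theorem mass (hSCA : StSCA) (hVOL : StVOL) (hMOM : StMOM) {D N : ℕ}
    {s : Fin N → MvPolynomial (Fin C.m) ℂ} (hs : ONB C D s) :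
    ∫⁻ z in {z | z ∈ C.U ∧ C.u z < 1}, ENNReal.ofReal (gg C D s z) ∂C.nu =
      ENNReal.ofReal (N / (C.m * (2 * D + C.m - 1).factorial)) := by
  have hUm := (hUo hC).measurableSet
  have hmp := m_pos hC
  have hsR : ∀ i, s i ∈ C.R D := fun i => by
    rw [← hs.span]; exact Submodule.subset_span ⟨i, rfl⟩
  have hgm : Measurable fun z => ENNReal.ofReal (gg C D s z) := (gg_meas hC D s).ennreal_ofReal
  -- homogeneity
  have hhom : ∀ z ∈ C.U, 0 < uu C z ∧ ∀ c : ℂ, c ≠ 0 →
      uu C (scl C.w c z) = ‖c‖ ^ (1 : ℝ) * uu C z ∧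
      ENNReal.ofReal (gg C D s (scl C.w c z)) =
        ENNReal.ofReal (‖c‖ ^ (0 : ℝ)) * ENNReal.ofReal (gg C D s z) := by
    intro z hz
    refine ⟨by rw [uu_eq hz]; exact u_pos hC hz, fun c hc => ?_⟩
    have hz' := hC.sclU c hc z hz
    have hcn : 0 < ‖c‖ := norm_pos_iff.2 hc
    refine ⟨by rw [uu_eq hz, uu_eq hz', Real.rpow_one, hC.uhom z hz c hc], ?_⟩
    rw [Real.rpow_zero, ENNReal.ofReal_one, one_mul]
    congr 1
    unfold gg
    rw [uu_eq hz, uu_eq hz', hC.uhom z hz c hc]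
    have e1 : ∀ j, ‖ev (s j) (scl C.w c z)‖ ^ 2 = ‖c‖ ^ (2 * D) * ‖ev (s j) z‖ ^ 2 := by
      intro j
      rw [hC.hom D (s j) (hsR j) c z, norm_mul, norm_pow, mul_pow, ← pow_mul, mul_comm D 2]
    rw [Finset.sum_congr rfl fun j _ => e1 j, ← Finset.mul_sum, mul_pow,
      mul_div_mul_left _ _ (pow_ne_zero _ hcn.ne')]
  -- finiteness
  obtain ⟨a, b, ha, hab⟩ := hC.ubd
  choose B hB using fun j => hC.bdd D (s j) (hsR j)
  have hSm := S_meas hC
  have hfin : ∫⁻ z in {z | z ∈ C.U ∧ uu C z < 1}, ENNReal.ofReal (gg C D s z) ∂C.nu ≠ ⊤ := by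
    rw [S_eq hC]
    have h1 : ∫⁻ z in {z | z ∈ C.U ∧ C.u z < 1}, ENNReal.ofReal (gg C D s z) ∂C.nu ≤
        ∫⁻ _z in {z | z ∈ C.U ∧ C.u z < 1}, ENNReal.ofReal ((∑ j, B j ^ 2) / a ^ (2 * D)) ∂C.nu := by
      refine setLIntegral_mono' hSm fun z hz => ENNReal.ofReal_le_ofReal ?_
      unfold gg
      rw [uu_eq hz.1]
      have hX := hC.Xpos z hz.1
      have h2 : (∑ j, ‖ev (s j) z‖ ^ 2) ≤ (∑ j, B j ^ 2) * C.sz z ^ (2 * D) := by
        rw [Finset.sum_mul]
        refine Finset.sum_le_sum fun j _ => ?_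
        calc ‖ev (s j) z‖ ^ 2 ≤ (B j * C.sz z ^ D) ^ 2 :=
              pow_le_pow_left₀ (norm_nonneg _) (hB j z) 2
          _ = B j ^ 2 * C.sz z ^ (2 * D) := by rw [mul_pow, ← pow_mul, mul_comm D 2]
      have h3 : a ^ (2 * D) * C.sz z ^ (2 * D) ≤ C.u z ^ (2 * D) := by
        rw [← mul_pow]
        exact pow_le_pow_left₀ (by positivity) (hab z hz.1).1 _
      have h4 : 0 < C.sz z ^ (2 * D) := pow_pos hX _
      have h5 : 0 < a ^ (2 * D) := pow_pos ha _
      rw [div_le_div_iff₀ (lt_of_lt_of_le (mul_pos h5 h4) h3) h5]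
      have h6 : 0 ≤ ∑ j, B j ^ 2 := Finset.sum_nonneg fun j _ => sq_nonneg _
      calc (∑ j, ‖ev (s j) z‖ ^ 2) * a ^ (2 * D) ≤
          (∑ j, B j ^ 2) * C.sz z ^ (2 * D) * a ^ (2 * D) :=
            mul_le_mul_of_nonneg_right h2 h5.le
        _ = (∑ j, B j ^ 2) * (a ^ (2 * D) * C.sz z ^ (2 * D)) := by ring
        _ ≤ _ := mul_le_mul_of_nonneg_left h3 h6
    refine ne_top_of_le_ne_top ?_ h1
    rw [setLIntegral_const, hVOL C hC]
    exact ENNReal.mul_ne_top ENNReal.ofReal_ne_top ENNReal.ofReal_ne_top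
  have hΦ : Measurable fun t : ℝ => ENNReal.ofReal (t ^ (2 * D) * Real.exp (-t)) := by
    fun_prop
  have key := hSCA C hC 1 0 one_pos (by
      have : (0 : ℝ) < C.m := by exact_mod_cast hmp
      simpa using this) (uu C) (fun z => ENNReal.ofReal (gg C D s z)) (uu_meas hC) hgm hhom hfin
    (fun t : ℝ => ENNReal.ofReal (t ^ (2 * D) * Real.exp (-t))) hΦ
  rw [lint_gam C.m D hmp, S_eq hC] at key
  -- the left side
  have hL : ∀ i, L2 C.U C.u (fun z => ev (s i) z * ev C.J z) := fun i =>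
    (hMOM C hC).2.2.2 D (s i) (hsR i)
  have hJm : Measurable fun z : Fin C.m → ℂ => ENNReal.ofReal (‖ev C.J z‖ ^ 2) :=
    ((MvPolynomial.continuous_eval C.J).norm.pow 2).measurable.ennreal_ofReal
  have hmm : Measurable fun z : Fin C.m → ℂ =>
      ENNReal.ofReal (uu C z ^ (2 * D) * Real.exp (-uu C z)) * ENNReal.ofReal (gg C D s z) :=
    (hΦ.comp (uu_meas hC)).mul hgm
  have hleft : ∫⁻ z in C.U, ENNReal.ofReal (uu C z ^ (2 * D) * Real.exp (-uu C z)) *
      ENNReal.ofReal (gg C D s z) ∂C.nu = ENNReal.ofReal N := by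
    unfold Cone.nu
    rw [setLIntegral_withDensity_eq_setLIntegral_mul _ hJm hmm hUm]
    have e1 : ∀ z ∈ C.U, ((fun z : Fin C.m → ℂ => ENNReal.ofReal (‖ev C.J z‖ ^ 2)) *
        fun z => ENNReal.ofReal (uu C z ^ (2 * D) * Real.exp (-uu C z)) *
          ENNReal.ofReal (gg C D s z)) z =
        ENNReal.ofReal (∑ j, ‖ev (s j) z * ev C.J z‖ ^ 2 * Real.exp (-C.u z)) := by
      intro z hz
      have hu := u_pos hC hz
      simp only [Pi.mul_apply]
      rw [uu_eq hz, ← ENNReal.ofReal_mul (by positivity), ← ENNReal.ofReal_mul (by positivity)]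
      congr 1
      unfold gg
      rw [uu_eq hz]
      have e2 : ∀ j, ‖ev (s j) z * ev C.J z‖ ^ 2 * Real.exp (-C.u z) =
          ‖ev (s j) z‖ ^ 2 * (‖ev C.J z‖ ^ 2 * Real.exp (-C.u z)) := fun j => by
        rw [norm_mul]; ring
      rw [Finset.sum_congr rfl fun j _ => e2 j, ← Finset.sum_mul]
      have h4 : C.u z ^ (2 * D) ≠ 0 := (pow_pos hu _).ne'
      field_simp
    rw [setLIntegral_congr_fun hUm e1]
    have hint : ∀ j, Integrable (fun z => ‖ev (s j) z * ev C.J z‖ ^ 2 * Real.exp (-C.u z))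
        (volume.restrict C.U) := fun j => (hL j).2
    rw [← ofReal_integral_eq_lintegral_ofReal (integrable_finsetSum _ fun j _ => hint j)
      (Eventually.of_forall fun z => Finset.sum_nonneg fun j _ => by positivity)]
    congr 1
    rw [integral_finsetSum _ fun j _ => hint j]
    have e3 : ∀ j, ∫ z in C.U, ‖ev (s j) z * ev C.J z‖ ^ 2 * Real.exp (-C.u z) = 1 := fun j =>
      onb_norm hC hMOM hs j
    rw [Finset.sum_congr rfl fun j _ => e3 j]
    simp
  rw [hleft] at key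
  -- solve for the integral
  have hI : ∫⁻ z in {z | z ∈ C.U ∧ C.u z < 1}, ENNReal.ofReal (gg C D s z) ∂C.nu ≠ ⊤ := by
    rwa [S_eq hC] at hfin
  have hK : (0 : ℝ) < C.m * (2 * D + C.m - 1).factorial := by
    have h1 : (0 : ℝ) < C.m := by exact_mod_cast hmp
    have h2 : (0 : ℝ) < (2 * D + C.m - 1).factorial := by
      exact_mod_cast Nat.factorial_pos _
    positivity
  rw [← ENNReal.ofReal_toReal hI, ← ENNReal.ofReal_mul hK.le] at key
  rw [← ENNReal.ofReal_toReal hI]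
  congr 1
  have h7 : (N : ℝ) = C.m * (2 * D + C.m - 1).factorial *
      (∫⁻ z in {z | z ∈ C.U ∧ C.u z < 1}, ENNReal.ofReal (gg C D s z) ∂C.nu).toReal := by
    have := congrArg ENNReal.toReal key
    rwa [ENNReal.toReal_ofReal (Nat.cast_nonneg _),
      ENNReal.toReal_ofReal (mul_nonneg hK.le ENNReal.toReal_nonneg)] at this
  rw [h7]
  field_simp

/-! ### Lower bound at a point -/

private theorem low (hPEA : StPEA) (hMOM : StMOM) {z : Fin C.m → ℂ} (hz : z ∈ C.U) {ε : ℝ}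
    (hε : 0 < ε) : ∀ᶠ D : ℕ in atTop, ∀ (N : ℕ) (s : Fin N → MvPolynomial (Fin C.m) ℂ),
      ONB C D s → 1 ≤ (1 + ε) * C.berg D s z := by
  filter_upwards [hPEA C hC z hz ε hε, eventually_gt_atTop 0] with D hD hD0 N s hs
  obtain ⟨f, hf, hf0, hle⟩ := hD
  have hex := onb_ext hC hMOM hs hf z
  set n := nrm C.U C.u (fun z => ev f z * ev C.J z)
  set S0 := ∑ i, ‖ev (s i) z‖ ^ 2 with hS0
  have hT : 0 < ‖ev f z‖ ^ 2 := pow_pos (norm_pos_iff.2 hf0) 2
  have hn : 0 ≤ n := nrm_nn _ _ _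
  have hS : 0 ≤ S0 := Finset.sum_nonneg fun i _ => sq_nonneg _
  have hu : 0 < C.u z ^ (2 * D) := pow_pos (u_pos hC hz) _
  have hDm : (0 : ℝ) < (D : ℝ) ^ (C.m - 1) := by positivity
  set A : ℝ := (Real.pi / 2) ^ C.m * (2 * D + C.m - 1).factorial with hA
  have hA0 : 0 < A := by
    have h2 : (0 : ℝ) < (2 * D + C.m - 1).factorial := by
      exact_mod_cast Nat.factorial_pos _
    positivity
  have h1 : ‖ev f z‖ ^ 2 * (D : ℝ) ^ (C.m - 1) ≤
      ‖ev f z‖ ^ 2 * ((1 + ε) * A * (S0 / C.u z ^ (2 * D))) := by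
    calc ‖ev f z‖ ^ 2 * (D : ℝ) ^ (C.m - 1) ≤ n * S0 * (D : ℝ) ^ (C.m - 1) :=
          mul_le_mul_of_nonneg_right hex hDm.le
      _ = S0 * (n * (D : ℝ) ^ (C.m - 1)) := by ring
      _ ≤ S0 * ((1 + ε) * (Real.pi / 2) ^ C.m * (2 * D + C.m - 1).factorial *
          (‖ev f z‖ ^ 2 / C.u z ^ (2 * D))) := mul_le_mul_of_nonneg_left hle hS
      _ = _ := by rw [hA]; ring
  have h2 := le_of_mul_le_mul_left h1 hT
  unfold Cone.berg
  rw [← hS0]
  have h3 : (1 + ε) * ((2 * D + C.m - 1).factorial * (Real.pi / 2) ^ C.m / (D : ℝ) ^ (C.m - 1) *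
      (S0 / C.u z ^ (2 * D))) = ((1 + ε) * A * (S0 / C.u z ^ (2 * D))) / (D : ℝ) ^ (C.m - 1) := by
    rw [hA]; ring
  rw [h3, le_div_iff₀ hDm, one_mul]
  exact h2

/-- the constant in the Bergman function -/
private noncomputable def KK (C : Cone) (D : ℕ) : ℝ :=
  (2 * D + C.m - 1).factorial * (Real.pi / 2) ^ C.m / (D : ℝ) ^ (C.m - 1)

omit hC in
private theorem KK_nn (D : ℕ) : 0 ≤ KK C D := by
  unfold KK
  positivity

omit hC in
private theorem berg_eq {D N : ℕ} (s : Fin N → MvPolynomial (Fin C.m) ℂ) {z : Fin C.m → ℂ}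
    (hz : z ∈ C.U) : C.berg D s z = KK C D * gg C D s z := by
  unfold Cone.berg KK gg
  rw [uu_eq hz]

private theorem gg_nn {D N : ℕ} (s : Fin N → MvPolynomial (Fin C.m) ℂ) {z : Fin C.m → ℂ}
    (hz : z ∈ C.U) : 0 ≤ gg C D s z := by
  unfold gg
  rw [uu_eq hz]
  have := u_pos hC hz
  positivity

private theorem mass2 (hSCA : StSCA) (hVOL : StVOL) (hMOM : StMOM) {D N : ℕ}
    {s : Fin N → MvPolynomial (Fin C.m) ℂ} (hs : ONB C D s) :
    ∫⁻ z in {z | z ∈ C.U ∧ C.u z < 1}, ENNReal.ofReal (KK C D * gg C D s z) ∂C.nu =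
      ENNReal.ofReal ((Real.pi / 2) ^ C.m / C.m *
        ((Module.finrank ℂ (C.R D) : ℝ) / (D : ℝ) ^ (C.m - 1))) := by
  have h1 : ∀ z, ENNReal.ofReal (KK C D * gg C D s z) =
      ENNReal.ofReal (KK C D) * ENNReal.ofReal (gg C D s z) := fun z =>
    ENNReal.ofReal_mul (KK_nn D)
  simp_rw [h1]
  rw [lintegral_const_mul _ (gg_meas hC D s).ennreal_ofReal, mass hC hSCA hVOL hMOM hs,
    ← ENNReal.ofReal_mul (KK_nn D), onb_card hC hMOM hs]
  congr 1
  unfold KK
  have h2 : ((2 * D + C.m - 1).factorial : ℝ) ≠ 0 := by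
    exact_mod_cast Nat.factorial_ne_zero _
  field_simp

end cone

theorem hBER (hPEA : StPEA) (hSCA : StSCA) (hVOL : StVOL) (hMOM : StMOM) : StBER := by
  intro C hC ε hε
  by_contra hne
  rw [Filter.not_eventually] at hne
  obtain ⟨φ, hφ, hb⟩ := extraction_of_frequently_atTop hne
  push Not at hb
  choose N s hs hlt using hb
  have hSm := S_meas hC
  set S : Set (Fin C.m → ℂ) := {z | z ∈ C.U ∧ C.u z < 1} with hSdef
  have hfin : C.nu S ≠ ⊤ := by
    rw [hVOL C hC]; exact ENNReal.ofReal_ne_top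
  have hmp := m_pos hC
  let b : ℕ → (Fin C.m → ℂ) → ℝ := fun i z => KK C (φ i) * gg C (φ i) (s i) z
  have hbm : ∀ i, Measurable (b i) := fun i => (gg_meas hC (φ i) (s i)).const_mul _
  have hbn : ∀ i, ∀ z ∈ S, 0 ≤ b i z := fun i z hz => mul_nonneg (KK_nn _) (gg_nn hC _ hz.1)
  -- total mass
  have h1 : Tendsto (fun i => ∫⁻ z in S, ENNReal.ofReal (b i z) ∂C.nu) atTop (𝓝 (C.nu S)) := by
    have e1 : ∀ i, ∫⁻ z in S, ENNReal.ofReal (b i z) ∂C.nu =
        ENNReal.ofReal ((Real.pi / 2) ^ C.m / C.m *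
          ((Module.finrank ℂ (C.R (φ i)) : ℝ) / ((φ i : ℕ) : ℝ) ^ (C.m - 1))) := fun i =>
      mass2 hC hSCA hVOL hMOM (hs i)
    simp_rw [e1]
    have e2 : C.nu S = ENNReal.ofReal ((Real.pi / 2) ^ C.m / C.m *
        ((C.rd : ℝ) / (C.m - 1).factorial)) := by
      rw [hVOL C hC]
      congr 1
      have h3 : (C.m.factorial : ℝ) = C.m * (C.m - 1).factorial := by
        rw [← Nat.mul_factorial_pred hmp.ne']
        push_cast
        rfl
      rw [h3]
      have h4 : ((C.m - 1).factorial : ℝ) ≠ 0 := by exact_mod_cast Nat.factorial_ne_zero _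
      have h5 : (C.m : ℝ) ≠ 0 := by exact_mod_cast hmp.ne'
      field_simp
    rw [e2]
    refine (ENNReal.continuous_ofReal.tendsto _).comp ?_
    exact (hC.dim.comp hφ.tendsto_atTop).const_mul _
  -- the negative part
  have h2 : Tendsto (fun i => ∫⁻ z in S, ENNReal.ofReal (1 - b i z) ∂C.nu) atTop (𝓝 0) := by
    have e1 : ∫⁻ _z in S, (0 : ENNReal) ∂C.nu = 0 := by simp
    rw [← e1]
    refine tendsto_lintegral_of_dominated_convergence (fun _ => 1)
      (fun i => (measurable_const.sub (hbm i)).ennreal_ofReal) (fun i => ?_) ?_ ?_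
    · rw [Filter.EventuallyLE, ae_restrict_iff' hSm]
      refine Eventually.of_forall fun z hz => ?_
      rw [← ENNReal.ofReal_one]
      exact ENNReal.ofReal_le_ofReal (by linarith [hbn i z hz])
    · rw [setLIntegral_const, one_mul]
      exact hfin
    · rw [ae_restrict_iff' hSm]
      refine Eventually.of_forall fun z hz => ?_
      rw [ENNReal.tendsto_nhds_zero]
      intro δ hδ
      obtain ⟨η, hη, hηδ⟩ : ∃ η : ℝ, 0 < η ∧ ENNReal.ofReal η ≤ δ := by
        rcases eq_or_ne δ ⊤ with h | h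
        · exact ⟨1, one_pos, h ▸ le_top⟩
        · exact ⟨δ.toReal, ENNReal.toReal_pos hδ.ne' h, by rw [ENNReal.ofReal_toReal h]⟩
      filter_upwards [hφ.tendsto_atTop.eventually (low hC hPEA hMOM hz.1 hη)] with i hi
      refine le_trans (ENNReal.ofReal_le_ofReal ?_) hηδ
      have h3 := hi _ _ (hs i)
      rw [berg_eq _ hz.1] at h3
      have h4 : 1 ≤ (1 + η) * b i z := h3
      have h5 := hbn i z hz
      by_contra hcon
      push Not at hcon
      nlinarith [mul_pos hη hη]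
  -- the identity
  have h3 : ∀ i, ∫⁻ z in S, ENNReal.ofReal |b i z - 1| ∂C.nu + C.nu S =
      ∫⁻ z in S, ENNReal.ofReal (b i z) ∂C.nu +
        2 * ∫⁻ z in S, ENNReal.ofReal (1 - b i z) ∂C.nu := by
    intro i
    have hm1 : Measurable fun z => ENNReal.ofReal |b i z - 1| :=
      ((hbm i).sub_const 1).abs.ennreal_ofReal
    have hm2 : Measurable fun z => ENNReal.ofReal (b i z) := (hbm i).ennreal_ofReal
    have hm3 : Measurable fun z => ENNReal.ofReal (1 - b i z) :=
      (measurable_const.sub (hbm i)).ennreal_ofReal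
    have e1 : C.nu S = ∫⁻ _z in S, (1 : ENNReal) ∂C.nu := by
      rw [setLIntegral_const, one_mul]
    rw [e1, ← lintegral_const_mul _ hm3, ← lintegral_add_left hm1, ← lintegral_add_left hm2]
    refine setLIntegral_congr_fun hSm fun z hz => ?_
    have hn := hbn i z hz
    rcases le_total 1 (b i z) with h | h
    · rw [abs_of_nonneg (by linarith), ENNReal.ofReal_of_nonpos (by linarith : 1 - b i z ≤ 0),
        mul_zero, add_zero, ← ENNReal.ofReal_one, ← ENNReal.ofReal_add (by linarith) zero_le_one]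
      congr 1
      ring
    · rw [abs_of_nonpos (by linarith), two_mul, ← ENNReal.ofReal_one,
        ← ENNReal.ofReal_add (by linarith) zero_le_one,
        ← ENNReal.ofReal_add (by linarith) (by linarith),
        ← ENNReal.ofReal_add hn (by linarith)]
      congr 1
      ring
  -- conclusion
  have h4 : Tendsto (fun i => ∫⁻ z in S, ENNReal.ofReal |b i z - 1| ∂C.nu + C.nu S) atTop
      (𝓝 (C.nu S)) := by
    simp_rw [h3]
    have h5 := h1.add (ENNReal.Tendsto.const_mul h2 (Or.inr (by norm_num : (2 : ENNReal) ≠ ⊤)))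
    simpa using h5
  have h5 : C.nu S < ENNReal.ofReal ε + C.nu S := by
    have : (0 : ENNReal) < ENNReal.ofReal ε := ENNReal.ofReal_pos.2 hε
    calc C.nu S = 0 + C.nu S := (zero_add _).symm
      _ < _ := ENNReal.add_lt_add_right hfin this
  obtain ⟨i, hi⟩ := (h4.eventually (gt_mem_nhds h5)).exists
  have h6 : ∫⁻ z in S, ENNReal.ofReal |b i z - 1| ∂C.nu < ENNReal.ofReal ε :=
    (ENNReal.add_lt_add_iff_right hfin).1 hi
  have h7 : ∫⁻ z in S, ENNReal.ofReal |C.berg (φ i) (s i) z - 1| ∂C.nu =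
      ∫⁻ z in S, ENNReal.ofReal |b i z - 1| ∂C.nu := by
    refine setLIntegral_congr_fun hSm fun z hz => ?_
    rw [berg_eq _ hz.1]
  have h8 := hlt i
  rw [h7] at h8
  exact absurd h8 (not_lt.2 h6.le)

end Pool.Agent.Helper13.KP
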