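import Pool.Agent.Helper93.KP.St
import Pool.Agent.Helper74.TW.M_D5

/-!
# Project KP, module D5P: the numerical table with grid step 1/128

As the module D5 of project TW (`Pool/Agent/Helper74/TW/M_D5.lean`), with finer grid.
-/

set_option autoImplicit false

namespace Pool.Agent.Helper13.KP

open Finset Filter Topology Pool.Agent.Helper93.KP
open Pool.Agent.Helper9.TW (Ax GUp GLo StD1 StD2 StD3 StD4)
open Pool.Agent.Helper74.TW (pU pL GUp_mono GLo_mono pU_len pL_len cond_ble cond_ble' ceil_bound GLo_zero exp_neg_bound3)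

/-- the upper bounds for `i < 384` -/
private def eU (q : ℕ) : ℕ → ℕ → List ℕ
  | _, 0 => []
  | i, n + 1 => ((384 * q + i - 1) / i) :: eU q (i - 1) n

/-- one step -/
private def stp (v : List ℕ × List ℕ) : List ℕ × List ℕ :=
  (pU 1791 100003340 v.1 (v.2.drop 128),
    pL 1791 99996660 v.2 ((pU 1791 100003340 v.1 (v.2.drop 128) ++
      eU ((pU 1791 100003340 v.1 (v.2.drop 128)).getD 1407 0) 383 256).drop 128))

/-- iteration -/
private def itr : ℕ → List ℕ × List ℕ → List ℕ × List ℕ
  | 0, v => v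
  | n + 1, v => itr n (stp v)

/-- the check -/
private def chk (v : List ℕ × List ℕ) : Bool :=
  Nat.ble (v.1.getD 1407 0) 119470000 && Nat.ble (v.1.getD 1279 0) 102350000 &&
    Nat.ble 97640000 (v.2.getD 1279 0)

private theorem chk_true : chk (itr 20 (List.replicate 1408 300000000, List.replicate 1536 0)) = true := by
  decide +kernel

/-- validity of a list of upper bounds, starting at the index `i` -/
private def VU (S : ℕ) : ℕ → List ℕ → Prop
  | _, [] => True
  | i, x :: xs => (GUp S ((i : ℝ) / 128) ((x : ℝ) / 100000000) ∧ 100000000 ≤ x) ∧ VU S (i - 1) xs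

/-- validity of a list of lower bounds, starting at the index `i` -/
private def VL (S : ℕ) : ℕ → List ℕ → Prop
  | _, [] => True
  | i, x :: xs => (GLo S ((i : ℝ) / 128) ((x : ℝ) / 100000000) ∧ x ≤ 100000000) ∧ VL S (i - 1) xs

private theorem eU_len (q : ℕ) : ∀ n i : ℕ, (eU q i n).length = n
  | 0, i => rfl
  | n + 1, i => by simp only [eU, List.length_cons]; rw [eU_len q n]

set_option maxRecDepth 100000 in
private theorem pU_valid (h2 : StD2) (S : ℕ) : ∀ (xs ls : List ℕ) (i p : ℕ), VU S i xs →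
    VL S (i - 128) ls → (GUp S (((i : ℝ) + 1) / 128) ((p : ℝ) / 100000000) ∧ 100000000 ≤ p) →
    xs.length + 383 ≤ i → VU S i (pU i p xs ls)
  | [], ls, i, p, _, _, _, _ => by cases ls <;> simp [pU, VU]
  | x :: xs, [], i, p, _, _, _, _ => by simp [pU, VU]
  | x :: xs, l :: ls, i, p, hx, hl, hp, hlen => by
    simp only [pU, cond_ble]
    obtain ⟨⟨hx1, hx2⟩, hx3⟩ := hx
    obtain ⟨⟨hl1, hl2⟩, hl3⟩ := hl
    obtain ⟨hp1, hp2⟩ := hp
    simp only [List.length_cons] at hlen
    have hi : 384 ≤ i := by omega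
    have hi' : (0 : ℝ) < i := by
      have : 0 < i := by omega
      exact_mod_cast this
    set y : ℕ := ((i + 1) * p - l + i - 1) / i with hy
    have hle : l ≤ (i + 1) * p := by nlinarith
    have hy1 : GUp S ((i : ℝ) / 128) ((y : ℝ) / 100000000) := by
      have e1 : ((i - 128 : ℕ) : ℝ) = (i : ℝ) - 128 := by
        rw [Nat.cast_sub (by omega)]; norm_num
      rw [e1] at hl1
      have h := h2 S 128 i ((p : ℝ) / 100000000) ((l : ℝ) / 100000000) (by norm_num) (by omega)
        (by rw [le_div_iff₀ (by norm_num)]; rw [one_mul]; exact_mod_cast hp2)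
        (by positivity)
        (by rw [div_le_iff₀ (by norm_num)]; rw [one_mul]; exact_mod_cast hl2)
        (by exact_mod_cast hp1) (by exact_mod_cast hl1)
      refine GUp_mono S _ _ _ _ (by norm_num) ?_ h
      have hb := ceil_bound ((i + 1) * p - l) i (by omega)
      rw [← hy] at hb
      rw [Nat.cast_sub hle] at hb
      push_cast at hb
      calc (((i : ℝ) + 1) * (p / 100000000) - l / 100000000) / i
          = ((((i : ℝ) + 1) * p - l) / i) / 100000000 := by ring
        _ ≤ y / 100000000 := by gcongr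
    have hy2 : 100000000 ≤ y := by
      rw [hy, Nat.le_div_iff_mul_le (by omega)]
      have : (i + 1) * 100000000 ≤ (i + 1) * p := Nat.mul_le_mul_left _ hp2
      omega
    have hm : GUp S ((i : ℝ) / 128) (((min x y : ℕ) : ℝ) / 100000000) ∧ 100000000 ≤ min x y := by
      refine ⟨?_, le_min hx2 hy2⟩
      rcases min_choice x y with h | h <;> rw [h]
      · exact hx1
      · exact hy1
    refine ⟨hm, pU_valid h2 S xs ls (i - 1) (min x y) hx3 ?_ ⟨?_, hm.2⟩ (by omega)⟩
    · have : i - 1 - 128 = i - 128 - 1 := by omega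
      rw [this]; exact hl3
    · have e1 : ((i - 1 : ℕ) : ℝ) + 1 = (i : ℝ) := by
        rw [Nat.cast_sub (by omega)]; push_cast; ring
      rw [e1]; exact hm.1

set_option maxRecDepth 100000 in
private theorem pL_valid (h3 : StD3) (S : ℕ) : ∀ (xs us : List ℕ) (i p : ℕ), VL S i xs →
    VU S (i - 128) us → (GLo S (((i : ℝ) + 1) / 128) ((p : ℝ) / 100000000) ∧ p ≤ 100000000) →
    xs.length + 255 ≤ i → VL S i (pL i p xs us)
  | [], us, i, p, _, _, _, _ => by cases us <;> simp [pL, VL]
  | x :: xs, [], i, p, _, _, _, _ => by simp [pL, VL]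
  | x :: xs, u :: us, i, p, hx, hu, hp, hlen => by
    simp only [pL, cond_ble']
    obtain ⟨⟨hx1, hx2⟩, hx3⟩ := hx
    obtain ⟨⟨hu1, hu2⟩, hu3⟩ := hu
    obtain ⟨hp1, hp2⟩ := hp
    simp only [List.length_cons] at hlen
    have hi : 256 ≤ i := by omega
    have hi' : (0 : ℝ) < i := by
      have : 0 < i := by omega
      exact_mod_cast this
    set y : ℕ := ((i + 1) * p - u) / i with hy
    have hm1 : GLo S ((i : ℝ) / 128) (((max x y : ℕ) : ℝ) / 100000000) := by
      by_cases hle : u ≤ (i + 1) * p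
      · rcases max_choice x y with h | h <;> rw [h]
        · exact hx1
        · have e1 : ((i - 128 : ℕ) : ℝ) = (i : ℝ) - 128 := by
            rw [Nat.cast_sub (by omega)]; norm_num
          rw [e1] at hu1
          have h := h3 S 128 i ((p : ℝ) / 100000000) ((u : ℝ) / 100000000) (by norm_num) (by omega)
            (by rw [div_le_iff₀ (by norm_num)]; rw [one_mul]; exact_mod_cast hp2)
            (by rw [le_div_iff₀ (by norm_num)]; rw [one_mul]; exact_mod_cast hu2)
            (by exact_mod_cast hp1) (by exact_mod_cast hu1)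
          refine GLo_mono S _ _ _ _ (by norm_num) ?_ h
          have hb : ((y : ℕ) : ℝ) ≤ (((i + 1) * p - u : ℕ) : ℝ) / i := by
            rw [hy]; exact Nat.cast_div_le
          rw [Nat.cast_sub hle] at hb
          push_cast at hb
          calc (y : ℝ) / 100000000 ≤ ((((i : ℝ) + 1) * p - u) / i) / 100000000 := by gcongr
            _ = (((i : ℝ) + 1) * (p / 100000000) - u / 100000000) / i := by ring
      · have : y = 0 := by rw [hy, Nat.sub_eq_zero_of_le (by omega)]; simp
        rw [this, Nat.max_zero]; exact hx1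
    have hm2 : max x y ≤ 100000000 := by
      refine max_le hx2 ?_
      rw [hy]
      have h1 : (i + 1) * p - u ≤ i * 100000000 := by
        have : (i + 1) * p ≤ (i + 1) * 100000000 := Nat.mul_le_mul_left _ hp2
        omega
      calc ((i + 1) * p - u) / i ≤ i * 100000000 / i := Nat.div_le_div_right h1
        _ = 100000000 := Nat.mul_div_cancel_left _ (by omega)
    refine ⟨⟨hm1, hm2⟩, pL_valid h3 S xs us (i - 1) (max x y) hx3 ?_ ⟨?_, hm2⟩ (by omega)⟩
    · have : i - 1 - 128 = i - 128 - 1 := by omega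
      rw [this]; exact hu3
    · have e1 : ((i - 1 : ℕ) : ℝ) + 1 = (i : ℝ) := by
        rw [Nat.cast_sub (by omega)]; push_cast; ring
      rw [e1]; exact hm1

private theorem eU_valid (h4 : StD4) (S q : ℕ) (hq : 100000000 ≤ q)
    (hg : GUp S 3 ((q : ℝ) / 100000000)) : ∀ n i : ℕ, n ≤ i → i ≤ 384 → VU S i (eU q i n)
  | 0, i, _, _ => by simp [eU, VU]
  | n + 1, i, hn, hi => by
    have hi' : (0 : ℝ) < i := by
      have : 0 < i := by omega
      exact_mod_cast this
    have hi48 : (i : ℝ) ≤ 384 := by exact_mod_cast hi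
    refine ⟨⟨?_, ?_⟩, eU_valid h4 S q hq hg n (i - 1) (by omega) (by omega)⟩
    · have h := (h4 S ((q : ℝ) / 100000000)
        (by rw [le_div_iff₀ (by norm_num)]; rw [one_mul]; exact_mod_cast hq) hg).1
        ((i : ℝ) / 128) (by positivity) (by rw [div_le_iff₀ (by norm_num)]; linarith)
      refine GUp_mono S _ _ _ _ le_rfl ?_ h
      have hb := ceil_bound (384 * q) i (by omega)
      push_cast at hb
      calc 3 * ((q : ℝ) / 100000000) / (i / 128) = (384 * q / i) / 100000000 := by
            field_simp; ring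
        _ ≤ _ := by gcongr
    · rw [Nat.le_div_iff_mul_le (by omega)]
      omega

private theorem VU_append (S : ℕ) : ∀ (xs ys : List ℕ) (i : ℕ), VU S i xs → VU S (i - xs.length) ys →
    VU S i (xs ++ ys)
  | [], ys, i, _, h => by simpa using h
  | x :: xs, ys, i, h1, h2 => by
    refine ⟨h1.1, VU_append S xs ys (i - 1) h1.2 ?_⟩
    have : i - 1 - xs.length = i - (x :: xs).length := by
      simp only [List.length_cons]; omega
    rw [this]; exact h2

private theorem VU_drop (S : ℕ) : ∀ (k : ℕ) (xs : List ℕ) (i : ℕ), VU S i xs → VU S (i - k) (xs.drop k)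
  | 0, xs, i, h => by simpa using h
  | k + 1, [], i, _ => by simp [VU]
  | k + 1, x :: xs, i, h => by
    have := VU_drop S k xs (i - 1) h.2
    simp only [List.drop_succ_cons]
    have e : i - (k + 1) = i - 1 - k := by omega
    rw [e]; exact this

private theorem VL_drop (S : ℕ) : ∀ (k : ℕ) (xs : List ℕ) (i : ℕ), VL S i xs → VL S (i - k) (xs.drop k)
  | 0, xs, i, h => by simpa using h
  | k + 1, [], i, _ => by simp [VL]
  | k + 1, x :: xs, i, h => by
    have := VL_drop S k xs (i - 1) h.2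
    simp only [List.drop_succ_cons]
    have e : i - (k + 1) = i - 1 - k := by omega
    rw [e]; exact this

private theorem VU_get (S : ℕ) : ∀ (k : ℕ) (xs : List ℕ) (i : ℕ), VU S i xs → k < xs.length →
    GUp S (((i - k : ℕ) : ℝ) / 128) (((xs.getD k 0 : ℕ) : ℝ) / 100000000) ∧
      100000000 ≤ xs.getD k 0
  | k, [], i, _, hk => by simp at hk
  | 0, x :: xs, i, h, _ => by simpa using h.1
  | k + 1, x :: xs, i, h, hk => by
    have := VU_get S k xs (i - 1) h.2 (by simpa using hk)
    have e : i - (k + 1) = i - 1 - k := by omega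
    rw [e]
    simpa using this

private theorem VL_get (S : ℕ) : ∀ (k : ℕ) (xs : List ℕ) (i : ℕ), VL S i xs → k < xs.length →
    GLo S (((i - k : ℕ) : ℝ) / 128) (((xs.getD k 0 : ℕ) : ℝ) / 100000000) ∧
      xs.getD k 0 ≤ 100000000
  | k, [], i, _, hk => by simp at hk
  | 0, x :: xs, i, h, _ => by simpa using h.1
  | k + 1, x :: xs, i, h, hk => by
    have := VL_get S k xs (i - 1) h.2 (by simpa using hk)
    have e : i - (k + 1) = i - 1 - k := by omega
    rw [e]
    simpa using this

private theorem VU_rep (S : ℕ) (h : GUp S 3 3) : ∀ n i : ℕ, n + 383 ≤ i →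
    VU S i (List.replicate n 300000000)
  | 0, i, _ => by simp [VU]
  | n + 1, i, hi => by
    rw [List.replicate_succ]
    refine ⟨⟨?_, by norm_num⟩, VU_rep S h n (i - 1) (by omega)⟩
    refine GUp_mono S 3 _ 3 _ ?_ (by norm_num) h
    have : (384 : ℝ) ≤ i := by
      have : 384 ≤ i := by omega
      exact_mod_cast this
    rw [le_div_iff₀ (by norm_num)]; linarith

private theorem VL_rep (S : ℕ) : ∀ n i : ℕ, VL S i (List.replicate n 0)
  | 0, i => by simp [VL]
  | n + 1, i => by
    rw [List.replicate_succ]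
    refine ⟨⟨?_, by norm_num⟩, VL_rep S n (i - 1)⟩
    have : ((0 : ℕ) : ℝ) / 100000000 = 0 := by norm_num
    rw [this]; exact GLo_zero S _

/-- validity of the state -/
private def Vd (S : ℕ) (v : List ℕ × List ℕ) : Prop :=
  v.1.length = 1408 ∧ v.2.length = 1536 ∧ VU S 1791 v.1 ∧ VL S 1791 v.2

private theorem stp_valid (h2 : StD2) (h3 : StD3) (h4 : StD4) (S : ℕ)
    (hU : GUp S 14 (100003340 / 100000000)) (hL : GLo S 14 (99996660 / 100000000))
    (v : List ℕ × List ℕ) (h : Vd S v) : Vd S (stp v) := by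
  obtain ⟨k1, k2, k3, k4⟩ := h
  have hlen : (v.2.drop 128).length = 1408 := by rw [List.length_drop, k2]
  have l1 : (pU 1791 100003340 v.1 (v.2.drop 128)).length = 1408 := by
    rw [pU_len _ _ _ _ (by rw [k1, hlen]), k1]
  have v1 : VU S 1791 (pU 1791 100003340 v.1 (v.2.drop 128)) := by
    refine pU_valid h2 S _ _ _ _ k3 (VL_drop S 128 v.2 1791 k4) ⟨?_, by norm_num⟩ (by rw [k1])
    have e : (((1791 : ℕ) : ℝ) + 1) / 128 = 14 := by norm_num
    rw [e]; exact_mod_cast hU
  have g := VU_get S 1407 _ 1791 v1 (by rw [l1]; norm_num)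
  have e3 : (((1791 - 1407 : ℕ) : ℕ) : ℝ) / 128 = 3 := by norm_num
  rw [e3] at g
  have v2 := eU_valid h4 S _ g.2 g.1 256 383 (by norm_num) (by norm_num)
  have v3 := VU_append S _ _ 1791 v1 (by rw [l1]; exact v2)
  have v4 := VU_drop S 128 _ 1791 v3
  refine ⟨l1, ?_, v1, ?_⟩
  · show (pL 1791 99996660 v.2 _).length = 1536
    rw [pL_len, k2]
    rw [k2, List.length_drop, List.length_append, l1, eU_len]
  · refine pL_valid h3 S _ _ _ _ k4 v4 ⟨?_, by norm_num⟩ (by rw [k2])
    have e : (((1791 : ℕ) : ℝ) + 1) / 128 = 14 := by norm_num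
    rw [e]; exact_mod_cast hL

private theorem itr_valid (h2 : StD2) (h3 : StD3) (h4 : StD4) (S : ℕ)
    (hU : GUp S 14 (100003340 / 100000000)) (hL : GLo S 14 (99996660 / 100000000)) :
    ∀ (n : ℕ) (v : List ℕ × List ℕ), Vd S v → Vd S (itr n v)
  | 0, v, h => h
  | n + 1, v, h => itr_valid h2 h3 h4 S hU hL n (stp v) (stp_valid h2 h3 h4 S hU hL v h)

private theorem exp_neg_bound (x : ℝ) (hx : 14 ≤ x) : 40 * Real.exp (-x) ≤ 3340 / 100000000 := by
  have h1 : Real.exp (-x) ≤ Real.exp (-14) := Real.exp_le_exp.mpr (by linarith)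
  have h2 : (1200000 : ℝ) ≤ Real.exp 14 := by
    have e : Real.exp 14 = Real.exp 1 ^ 14 := by rw [← Real.exp_nat_mul]; norm_num
    rw [e]
    calc (1200000 : ℝ) ≤ 2.7182818283 ^ 14 := by norm_num
      _ ≤ _ := by
        gcongr
        exact Real.exp_one_gt_d9.le
  have h3 : Real.exp (-14) ≤ 1 / 1200000 := by
    rw [Real.exp_neg, inv_eq_one_div]
    exact one_div_le_one_div_of_le (by norm_num) h2
  calc 40 * Real.exp (-x) ≤ 40 * (1 / 1200000) := by linarith
    _ ≤ _ := by norm_num

theorem hD5P (h1 : StD1) (h2 : StD2) (h3 : StD3) (h4 : StD4) : StD5P := by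
  intro S
  have hU14 : GUp S 14 (100003340 / 100000000) := by
    intro η hη
    obtain ⟨js, hjs⟩ := h1 S
    refine ⟨max js 1, fun j0 h0 U L hA j N hj hN hsN => ?_⟩
    have h2' : 1 ≤ j0 := le_trans (le_max_right _ _) h0
    have hj0 : (0 : ℝ) < j := by
      have : 0 < j := by omega
      exact_mod_cast this
    have hN14 : 14 * j ≤ N := by exact_mod_cast hsN
    obtain ⟨μ, hμ, hμ'⟩ := (hjs j0 (le_trans (le_max_left _ _) h0) U L hA j N hj hN).2
      (by omega)
    refine ⟨μ, hμ, hμ'.trans ?_⟩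
    refine mul_le_mul_of_nonneg_left ?_ (by positivity)
    have := exp_neg_bound ((N : ℝ) / j) (by rw [le_div_iff₀ hj0]; exact hsN)
    linarith
  have hL14 : GLo S 14 (99996660 / 100000000) := by
    intro η hη
    obtain ⟨js, hjs⟩ := h1 S
    refine ⟨max js 1, fun j0 h0 U L hA j N hj hN hsN => ?_⟩
    have h2' : 1 ≤ j0 := le_trans (le_max_right _ _) h0
    have hj0 : (0 : ℝ) < j := by
      have : 0 < j := by omega
      exact_mod_cast this
    have hN14 : 14 * j ≤ N := by exact_mod_cast hsN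
    obtain ⟨μ, hμ, hμ'⟩ := (hjs j0 (le_trans (le_max_left _ _) h0) U L hA j N hj hN).1
      (by omega)
    refine ⟨μ, hμ, le_trans ?_ hμ'⟩
    refine mul_le_mul_of_nonneg_left ?_ (by positivity)
    have := exp_neg_bound ((N : ℝ) / j) (by rw [le_div_iff₀ hj0]; exact hsN)
    linarith
  have hU3 : GUp S 3 3 := by
    intro η hη
    obtain ⟨js, hjs⟩ := h1 S
    refine ⟨max js 1, fun j0 h0 U L hA j N hj hN hsN => ?_⟩
    have h2' : 1 ≤ j0 := le_trans (le_max_right _ _) h0
    have hj0 : (0 : ℝ) < j := by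
      have : 0 < j := by omega
      exact_mod_cast this
    have hN14 : 3 * j ≤ N := by exact_mod_cast hsN
    obtain ⟨μ, hμ, hμ'⟩ := (hjs j0 (le_trans (le_max_left _ _) h0) U L hA j N hj hN).2
      (by omega)
    refine ⟨μ, hμ, hμ'.trans ?_⟩
    refine mul_le_mul_of_nonneg_left ?_ (by positivity)
    have := exp_neg_bound3 ((N : ℝ) / j) (by rw [le_div_iff₀ hj0]; exact hsN)
    linarith
  have hV := itr_valid h2 h3 h4 S hU14 hL14 20
    (List.replicate 1408 300000000, List.replicate 1536 0)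
    ⟨List.length_replicate, List.length_replicate, VU_rep S hU3 1408 1791 (by norm_num),
      VL_rep S 1536 1791⟩
  have hc := chk_true
  obtain ⟨w1, w2, w3, w4⟩ := hV
  generalize itr 20 (List.replicate 1408 300000000, List.replicate 1536 0) = w at *
  unfold chk at hc
  rw [Bool.and_eq_true, Bool.and_eq_true] at hc
  obtain ⟨⟨c1, c2⟩, c3⟩ := hc
  rw [Nat.ble_eq] at c1 c2 c3
  have g1 := (VU_get S 1407 _ 1791 w3 (by rw [w1]; norm_num)).1
  have g2 := (VU_get S 1279 _ 1791 w3 (by rw [w1]; norm_num)).1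
  have g3 := (VL_get S 1279 _ 1791 w4 (by rw [w2]; norm_num)).1
  refine ⟨GUp_mono S _ _ _ _ (by norm_num) ?_ g1, GLo_mono S _ _ _ _ (by norm_num) ?_ g3,
    GUp_mono S _ _ _ _ (by norm_num) ?_ g2⟩
  · have : ((w.1.getD 1407 0 : ℕ) : ℝ) ≤ 119470000 := by exact_mod_cast c1
    linarith
  · have : (97640000 : ℝ) ≤ ((w.2.getD 1279 0 : ℕ) : ℝ) := by exact_mod_cast c3
    linarith
  · have : ((w.1.getD 1279 0 : ℕ) : ℝ) ≤ 102350000 := by exact_mod_cast c2
    linarith

end Pool.Agent.Helper13.KP
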