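import Pool.Agent.Helper85.KP.StE

/-!
# Project KP, module ERI: rigidity, the field is holomorphic
-/

set_option autoImplicit false

namespace Pool.Agent.Helper13.KP

open MeasureTheory Filter Pool.Agent.Helper52.KP Pool.Agent.Helper85.KP
open scoped ContDiff ComplexOrder Topology

private theorem eri_Uo (C : Cone) : IsOpen C.U :=
  isOpen_ne_fun (MvPolynomial.continuous_eval C.Δ) continuous_const

private theorem eri_sq (a : ℝ) (c J : ℂ) :
    ‖(a : ℂ) * J - c * J‖ ^ 2 = ((a - c.re) ^ 2 + c.im ^ 2) * ‖J‖ ^ 2 := by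
  rw [← sub_mul, norm_mul, mul_pow]
  congr 1
  rw [Complex.sq_norm, Complex.normSq_apply]
  simp
  ring

private theorem eri_jj (J : ℂ) : J * star J = ((‖J‖ ^ 2 : ℝ) : ℂ) := by
  rw [← Complex.normSq_eq_norm_sq, Complex.normSq_eq_conj_mul_self, mul_comm]; rfl

/-- a quadratic function with a minimum -/
private theorem eri_min {I0 I1 I2 x y : ℝ} (h0 : 0 < I0)
    (h : ∀ x' y' : ℝ, I2 - 2 * x * I1 + (x ^ 2 + y ^ 2) * I0 ≤
      I2 - 2 * x' * I1 + (x' ^ 2 + y' ^ 2) * I0) : y = 0 ∧ x * I0 = I1 := by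
  have h1 := h x 0
  have hy : y ^ 2 * I0 ≤ 0 := by nlinarith
  have hy2 : y ^ 2 ≤ 0 := by
    by_contra hc
    push Not at hc
    exact absurd hy (not_le.2 (mul_pos hc h0))
  have hy3 : y = 0 := by
    have : y ^ 2 = 0 := le_antisymm hy2 (sq_nonneg y)
    exact pow_eq_zero_iff (two_ne_zero) |>.1 this
  refine ⟨hy3, ?_⟩
  have h2 := h (I1 / I0) 0
  rw [hy3] at h2
  have h3 : (x * I0 - I1) ^ 2 ≤ 0 := by
    have e1 : I0 * (I2 - 2 * (I1 / I0) * I1 + ((I1 / I0) ^ 2 + 0 ^ 2) * I0) =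
        I0 * I2 - I1 ^ 2 := by
      field_simp
      ring
    have e2 := mul_le_mul_of_nonneg_left h2 h0.le
    rw [e1] at e2
    nlinarith
  have h4 : (x * I0 - I1) ^ 2 = 0 := le_antisymm h3 (sq_nonneg _)
  have h5 := pow_eq_zero_iff (two_ne_zero) |>.1 h4
  linarith

theorem hERI (hRHU : StRHU) (hEPG : StEPG) (hWEY : StWEY) (hMOM : StMOM) : StERI := by
  intro C hC g B A hgm hgB hA hghom hAmin hη
  have hUo := eri_Uo C
  have hUm := hUo.measurableSet
  have hmp : 0 < C.m := by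
    have h1 := hC.hm
    have h2 := hC.hn
    omega
  -- the weight
  let wg : (Fin C.m → ℂ) → ℝ := fun z => Real.exp (-C.u z) * ‖ev C.J z‖ ^ 2
  have hwc : ContinuousOn wg C.U :=
    (Real.continuous_exp.comp_continuousOn hC.usm.continuousOn.neg).mul
      ((MvPolynomial.continuous_eval C.J).norm.pow 2).continuousOn
  have hwm : AEStronglyMeasurable wg (volume.restrict C.U) := hwc.aestronglyMeasurable hUm
  have hwn : ∀ z, 0 ≤ wg z := fun z => by positivity
  have hupos : ∀ z ∈ C.U, 0 < C.u z := by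
    intro z hz
    obtain ⟨a, b, ha, hab⟩ := hC.ubd
    exact lt_of_lt_of_le (mul_pos ha (hC.Xpos z hz)) (hab z hz).1
  have hmom := (hMOM C hC).1
  -- moments
  have hi0 : IntegrableOn wg C.U := by
    refine (hmom 0).1.congr_fun (fun z _ => ?_) hUm
    simp only [pow_zero, one_mul]
    rfl
  have hI0 : 0 < ∫ z in C.U, wg z := by
    have h1 := (hmom 0).2
    have h2 : ∫ z in C.U, wg z =
        ∫ z in C.U, C.u z ^ 0 * Real.exp (-C.u z) * ‖ev C.J z‖ ^ 2 := by
      refine setIntegral_congr_fun hUm fun z _ => ?_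
      simp only [pow_zero, one_mul]
      rfl
    rw [h2, h1]
    have h3 : (0 : ℝ) < C.m := by exact_mod_cast hmp
    have h4 : (0 : ℝ) < C.rd := by exact_mod_cast hC.rd0
    have h5 : (0 : ℝ) < (0 + C.m - 1).factorial := by exact_mod_cast Nat.factorial_pos _
    have h6 : (0 : ℝ) < C.m.factorial := by exact_mod_cast Nat.factorial_pos _
    have h7 := Real.pi_pos
    positivity
  have hi1 : IntegrableOn (fun z => g z * wg z) C.U := by
    have h1 : IntegrableOn (fun z => B * (C.u z ^ 1 * Real.exp (-C.u z) * ‖ev C.J z‖ ^ 2)) C.U :=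
      (hmom 1).1.const_mul B
    refine h1.mono' (hgm.aestronglyMeasurable.mul hwm) ?_
    rw [ae_restrict_iff' hUm]
    refine Eventually.of_forall fun z hz => ?_
    rw [norm_mul, Real.norm_eq_abs, Real.norm_of_nonneg (hwn z)]
    calc |g z| * wg z ≤ B * C.u z * wg z := mul_le_mul_of_nonneg_right (hgB z hz) (hwn z)
      _ = _ := by simp only [wg]; ring
  have hi2 : IntegrableOn (fun z => g z ^ 2 * wg z) C.U := by
    have h1 : IntegrableOn (fun z => B ^ 2 * (C.u z ^ 2 * Real.exp (-C.u z) *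
      ‖ev C.J z‖ ^ 2)) C.U := (hmom 2).1.const_mul (B ^ 2)
    refine h1.mono' ((hgm.pow_const 2).aestronglyMeasurable.mul hwm) ?_
    rw [ae_restrict_iff' hUm]
    refine Eventually.of_forall fun z hz => ?_
    rw [norm_mul, Real.norm_of_nonneg (sq_nonneg _), Real.norm_of_nonneg (hwn z), ← sq_abs]
    calc |g z| ^ 2 * wg z ≤ (B * C.u z) ^ 2 * wg z :=
          mul_le_mul_of_nonneg_right (pow_le_pow_left₀ (abs_nonneg _) (hgB z hz) 2) (hwn z)
      _ = _ := by simp only [wg]; ring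
  set I0 := ∫ z in C.U, wg z with hI0d
  set I1 := ∫ z in C.U, g z * wg z with hI1d
  set I2 := ∫ z in C.U, g z ^ 2 * wg z with hI2d
  have hquad : ∀ x y : ℝ, IntegrableOn (fun z => ((g z - x) ^ 2 + y ^ 2) * wg z) C.U ∧
      ∫ z in C.U, ((g z - x) ^ 2 + y ^ 2) * wg z = I2 - 2 * x * I1 + (x ^ 2 + y ^ 2) * I0 := by
    intro x y
    have e1 : (fun z => ((g z - x) ^ 2 + y ^ 2) * wg z) =
        fun z => (g z ^ 2 * wg z - 2 * x * (g z * wg z)) + (x ^ 2 + y ^ 2) * wg z := by
      funext z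
      ring
    rw [e1]
    have h1 : Integrable (fun z => g z ^ 2 * wg z - 2 * x * (g z * wg z)) (volume.restrict C.U) :=
      hi2.sub (hi1.const_mul _)
    have h2 : Integrable (fun z => (x ^ 2 + y ^ 2) * wg z) (volume.restrict C.U) :=
      hi0.const_mul _
    refine ⟨h1.add h2, ?_⟩
    rw [integral_add h1 h2, integral_sub hi2 (hi1.const_mul _), integral_const_mul,
      integral_const_mul]
  -- the function
  let G : (Fin C.m → ℂ) → ℂ := fun z => (g z : ℂ) * ev C.J z
  have hJc : Continuous fun z : Fin C.m → ℂ => ev C.J z := MvPolynomial.continuous_eval C.J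
  have hGm : Measurable G := (Complex.measurable_ofReal.comp hgm).mul hJc.measurable
  have hL2 : ∀ c : ℂ, L2 C.U C.u (fun z => G z - c * ev C.J z) := by
    intro c
    refine ⟨(hGm.sub (hJc.measurable.const_mul c)).aestronglyMeasurable, ?_⟩
    refine (hquad c.re c.im).1.congr_fun (fun z _ => ?_) hUm
    simp only [G, wg]
    rw [eri_sq]
    ring
  have hnrm : ∀ c : ℂ, nrm C.U C.u (fun z => G z - c * ev C.J z) =
      I2 - 2 * c.re * I1 + (c.re ^ 2 + c.im ^ 2) * I0 := by
    intro c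
    rw [← (hquad c.re c.im).2]
    unfold nrm
    refine setIntegral_congr_fun hUm fun z _ => ?_
    simp only [G, wg]
    rw [eri_sq]
    ring
  have hG2 : L2 C.U C.u G := by
    have := hL2 0
    simpa using this
  have hGh : ∀ (c : ℂ), ‖c‖ = 1 → ∀ z ∈ C.U, G (scl C.w c z) = c ^ (0 + C.jd) * G z := by
    intro c hc z hz
    have hc0 : c ≠ 0 := by
      rintro rfl
      simp at hc
    simp only [G]
    rw [hghom z hz c hc0, hc, one_mul, hC.Jhom, zero_add]
    ring
  obtain ⟨s, hs, β, γ, -, hβ, hγ, hWT, hint, hle, hmin⟩ := hRHU C hC 0 G hG2 hGh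
  obtain ⟨c₀, rfl⟩ := hC.cst s hs
  have hev : ∀ (c : ℂ) (z : Fin C.m → ℂ), ev (MvPolynomial.C c) z = c := fun c z => by
    simp
  have hcR : ∀ c : ℂ, MvPolynomial.C c ∈ C.R 0 := by
    intro c
    have h1 := (C.R 0).smul_mem c hC.one
    rwa [MvPolynomial.smul_eq_C_mul, mul_one] at h1
  simp only [hev] at hWT hle hmin
  -- the constant
  have hmin2 : c₀.im = 0 ∧ c₀.re * I0 = I1 := by
    refine eri_min (I2 := I2) hI0 fun x' y' => ?_
    have h1 := hmin (MvPolynomial.C (⟨x', y'⟩ : ℂ)) (hcR _) ((hMOM C hC).2.2.2 0 _ (hcR _))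
    simp only [hev] at h1
    rw [hnrm, hnrm] at h1
    exact h1
  obtain ⟨him, hre⟩ := hmin2
  have hc₀ : c₀ = ((c₀.re : ℝ) : ℂ) := by
    apply Complex.ext <;> simp [him]
  set c := c₀.re with hcd
  have hnc : nrm C.U C.u (fun z => G z - c₀ * ev C.J z) = I2 - c * I1 := by
    rw [hnrm, him, ← hcd]
    have : c ^ 2 * I0 = c * I1 := by rw [← hre]; ring
    nlinarith
  have hinn : inn C.U C.u (fun z => G z - c₀ * ev C.J z) (fun z => (g z : ℂ) * ev C.J z) =
      ((I2 - c * I1 : ℝ) : ℂ) := by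
    have e1 : I2 - c * I1 = ∫ z in C.U, (g z ^ 2 * wg z - c * (g z * wg z)) := by
      rw [integral_sub hi2 (hi1.const_mul _), integral_const_mul]
    rw [e1, ← integral_complex_ofReal]
    unfold inn
    refine setIntegral_congr_fun hUm fun z _ => ?_
    simp only [G, wg]
    rw [hc₀, star_mul']
    have e2 : star ((g z : ℝ) : ℂ) = ((g z : ℝ) : ℂ) := Complex.conj_ofReal _
    rw [e2]
    have e3 : (((g z : ℝ) : ℂ) * ev C.J z - ((c : ℝ) : ℂ) * ev C.J z) *
        (((g z : ℝ) : ℂ) * star (ev C.J z)) * ((Real.exp (-C.u z) : ℝ) : ℂ) =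
        (((g z : ℝ) : ℂ) - ((c : ℝ) : ℂ)) * ((g z : ℝ) : ℂ) * (ev C.J z * star (ev C.J z)) *
          ((Real.exp (-C.u z) : ℝ) : ℂ) := by ring
    rw [e3, eri_jj]
    push_cast
    ring
  -- split the integral
  have hem : AEStronglyMeasurable (fun z => Real.exp (-C.u z)) (volume.restrict C.U) :=
    (Real.continuous_exp.comp_continuousOn hC.usm.continuousOn.neg).aestronglyMeasurable hUm
  have hhf : ∀ z ∈ C.U, ∀ ξ, 0 ≤ hf (hes C.u z) ξ := by
    intro z hz ξ
    rcases eq_or_ne ξ 0 with rfl | h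
    · simp [hf]
    · exact ((hC.uhes z hz).1.2 ξ h).le
  have hYi : IntegrableOn (fun z => (∑ j, ∑ k, ‖γ k j z‖ ^ 2) * Real.exp (-C.u z)) C.U := by
    refine hint.mono' ?_ ?_
    · refine AEStronglyMeasurable.mul ?_ hem
      refine Finset.aestronglyMeasurable_fun_sum _ fun j _ => ?_
      refine Finset.aestronglyMeasurable_fun_sum _ fun k _ => ?_
      exact (hγ k j).1.1.norm.pow 2
    · rw [ae_restrict_iff' hUm]
      refine Eventually.of_forall fun z hz => ?_
      rw [Real.norm_of_nonneg (by positivity)]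
      refine mul_le_mul_of_nonneg_right ?_ (Real.exp_pos _).le
      linarith [hhf z hz (fun j => β j z)]
  have hXi : IntegrableOn (fun z => hf (hes C.u z) (fun j => β j z) * Real.exp (-C.u z)) C.U := by
    refine (hint.sub hYi).congr_fun (fun z _ => ?_) hUm
    simp only [Pi.sub_apply]
    ring
  set X := ∫ z in C.U, hf (hes C.u z) (fun j => β j z) * Real.exp (-C.u z) with hXd
  set Y := ∫ z in C.U, (∑ j, ∑ k, ‖γ k j z‖ ^ 2) * Real.exp (-C.u z) with hYd
  have hXY : Y + X ≤ I2 - c * I1 := by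
    rw [← hnc]
    refine le_trans (le_of_eq ?_) hle
    rw [hXd, hYd, ← integral_add hYi hXi]
    refine setIntegral_congr_fun hUm fun z _ => ?_
    ring
  have hX0 : 0 ≤ X := setIntegral_nonneg hUm fun z hz =>
    mul_nonneg (hhf z hz _) (Real.exp_pos _).le
  have hYf : ∀ z, 0 ≤ (∑ j, ∑ k, ‖γ k j z‖ ^ 2) * Real.exp (-C.u z) := fun z => by positivity
  have hY0 : 0 ≤ Y := integral_nonneg hYf
  have hAle : A ≤ I2 - c * I1 := by
    have h1 := hAmin c
    have h2 : ∫ z in C.U, (g z - c) ^ 2 * Real.exp (-C.u z) * ‖ev C.J z‖ ^ 2 =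
        I2 - 2 * c * I1 + (c ^ 2 + 0 ^ 2) * I0 := by
      rw [← (hquad c 0).2]
      refine setIntegral_congr_fun hUm fun z _ => ?_
      simp only [wg]
      ring
    rw [h2] at h1
    have : c ^ 2 * I0 = c * I1 := by rw [← hre]; ring
    nlinarith
  have hpair := hEPG C hC g B A hgm hgB hA hη β (fun z => G z - c₀ * ev C.J z) hβ (hL2 c₀) hWT hXi
  rw [hinn, Complex.norm_real, ← hXd] at hpair
  have hYz : Y = 0 := by
    set n := I2 - c * I1 with hn
    have h1 : n ^ 2 ≤ A * X := by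
      have : ‖n‖ ^ 2 = n ^ 2 := by rw [Real.norm_eq_abs, sq_abs]
      rwa [this] at hpair
    have h2 : n ^ 2 ≤ n * X := h1.trans (mul_le_mul_of_nonneg_right hAle hX0)
    rcases le_or_gt n 0 with h | h
    · linarith
    · have h3 : n ≤ X := by
        by_contra hc
        push Not at hc
        nlinarith [mul_pos h (sub_pos.2 hc)]
      linarith
  -- `γ = 0`
  have hγ0 : ∀ k j, ∀ᵐ z ∂volume.restrict C.U, γ k j z = 0 := by
    have h1 := (integral_eq_zero_iff_of_nonneg hYf hYi).1 hYz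
    intro k j
    filter_upwards [h1] with z hz
    simp only [Pi.zero_apply] at hz
    have h2 : ∑ j, ∑ k, ‖γ k j z‖ ^ 2 = 0 := by
      rcases mul_eq_zero.1 hz with h | h
      · exact h
      · exact absurd h (Real.exp_pos _).ne'
    have h3 := (Finset.sum_eq_zero_iff_of_nonneg fun j _ =>
      Finset.sum_nonneg fun k _ => sq_nonneg ‖γ k j z‖).1 h2 j (Finset.mem_univ _)
    have h4 := (Finset.sum_eq_zero_iff_of_nonneg fun k _ =>
      sq_nonneg ‖γ k j z‖).1 h3 k (Finset.mem_univ _)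
    exact norm_eq_zero.1 (pow_eq_zero_iff (two_ne_zero) |>.1 h4)
  have hWD : ∀ j k, WD C.U k (β j) (fun _ => 0) := by
    intro j k φ hφ
    rw [(hγ k j).2 φ hφ]
    congr 1
    refine integral_congr_ae ?_
    filter_upwards [hγ0 k j] with z hz
    rw [hz]
  choose h hhd hhe using fun j => hWEY C.m C.U hUo (β j) (hβ j) (hWD j)
  have hall : ∀ᵐ z ∂volume.restrict C.U, ∀ j, β j z = h j z := ae_all_iff.2 hhe
  refine ⟨c, h, hhd, ?_, ?_⟩
  · refine hXi.congr ?_
    filter_upwards [hall] with z hz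
    have : (fun j => β j z) = fun j => h j z := funext hz
    rw [this]
  · intro φ hφ
    have h1 := hWT φ hφ
    have e1 : inn C.U C.u (fun z => ((g z - c : ℝ) : ℂ) * ev C.J z) φ =
        inn C.U C.u (fun z => G z - c₀ * ev C.J z) φ := by
      unfold inn
      refine setIntegral_congr_fun hUm fun z _ => ?_
      simp only [G]
      rw [hc₀]
      push_cast
      ring
    rw [e1, h1]
    refine Finset.sum_congr rfl fun j _ => ?_
    unfold inn
    refine integral_congr_ae ?_
    filter_upwards [hhe j] with z hz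
    rw [hz]

end Pool.Agent.Helper13.KP
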