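import Pool.Agent.Helper52.KP.StL

/-!
# Project KP, module MO1: derivatives of mollifications
-/

set_option autoImplicit false

namespace Pool.Agent.Helper13.KP

open Pool.Agent.Helper52.KP MeasureTheory Filter
open scoped ContDiff ComplexOrder Topology Convolution

variable {m : ℕ}

private theorem cf_contDiff {φ : (Fin m → ℂ) → ℝ} (h : ContDiff ℝ ∞ φ) : ContDiff ℝ ∞ (cf φ) :=
  Complex.ofRealCLM.contDiff.comp h

private theorem cf_compact {φ : (Fin m → ℂ) → ℝ} {r : ℝ} (h : ∀ z : Fin m → ℂ, r < ‖z‖ → φ z = 0) :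
    HasCompactSupport (cf φ) := by
  refine HasCompactSupport.intro (isCompact_closedBall (0 : Fin m → ℂ) r) fun z hz => ?_
  rw [mem_closedBall_zero_iff, not_le] at hz
  simp [cf, h z hz]

private theorem cv_eq (φ : (Fin m → ℂ) → ℝ) (f : (Fin m → ℂ) → ℂ) :
    cv φ f = (f ⋆[ContinuousLinearMap.mul ℝ ℂ, volume] cf φ) := by
  funext z
  unfold cv convolution cf
  refine integral_congr_ae (Eventually.of_forall fun x => ?_)
  simp only [ContinuousLinearMap.mul_apply']
  exact mul_comm _ _

private theorem fd {φ : (Fin m → ℂ) → ℝ} (h : ContDiff ℝ ∞ φ) (hc : HasCompactSupport (cf φ))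
    {f : (Fin m → ℂ) → ℂ} (hf : LocallyIntegrable f volume) (z v : Fin m → ℂ) :
    fderiv ℝ (cv φ f) z v = ∫ x, f x * fderiv ℝ (cf φ) (z - x) v := by
  have h1 : ContDiff ℝ 1 (cf φ) := (cf_contDiff h).of_le (by exact_mod_cast le_top)
  have h2 := (hc.hasFDerivAt_convolution_right (ContinuousLinearMap.mul ℝ ℂ) hf h1 z).fderiv
  rw [cv_eq, h2, convolution_precompR_apply (ContinuousLinearMap.mul ℝ ℂ) hf (hc.fderiv ℝ)
    (h1.continuous_fderiv one_ne_zero)]
  rfl

private theorem ig {φ : (Fin m → ℂ) → ℝ} (h : ContDiff ℝ ∞ φ) (hc : HasCompactSupport (cf φ))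
    {f : (Fin m → ℂ) → ℂ} (hf : LocallyIntegrable f volume) (z v : Fin m → ℂ) :
    Integrable fun x => f x * fderiv ℝ (cf φ) (z - x) v := by
  have h1 : ContDiff ℝ 1 (cf φ) := (cf_contDiff h).of_le (by exact_mod_cast le_top)
  have h2 : HasCompactSupport fun x => fderiv ℝ (cf φ) x v :=
    (hc.fderiv ℝ).comp_left (g := fun L : (Fin m → ℂ) →L[ℝ] ℂ => L v) rfl
  have h3 : Continuous fun x => fderiv ℝ (cf φ) x v :=
    (h1.continuous_fderiv one_ne_zero).clm_apply continuous_const
  exact h2.convolutionExists_right (ContinuousLinearMap.mul ℝ ℂ) hf h3 z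

private theorem ch {φ : (Fin m → ℂ) → ℝ} (h : ContDiff ℝ ∞ φ) (z x v : Fin m → ℂ) :
    fderiv ℝ (fun y => (φ (z - y) : ℂ)) x v = - fderiv ℝ (cf φ) (z - x) v := by
  have h1 : HasFDerivAt (fun y : Fin m → ℂ => z - y)
      (-(ContinuousLinearMap.id ℝ (Fin m → ℂ))) x := (hasFDerivAt_id x).const_sub z
  have h2 : HasFDerivAt (cf φ) (fderiv ℝ (cf φ) (z - x)) (z - x) :=
    (((cf_contDiff h).differentiable (by simp)) (z - x)).hasFDerivAt
  have h3 := (h2.comp x h1).fderiv
  have h4 : (fun y => (φ (z - y) : ℂ)) = cf φ ∘ fun y => z - y := rfl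
  rw [h4, h3]
  simp

theorem hMO1 : StMO1 := by
  intro m φ hφ f hf i
  have h := hφ.smooth i
  have hc : HasCompactSupport (cf (φ i)) := cf_compact (hφ.supp i)
  refine ⟨?_, ?_, ?_⟩
  · rw [cv_eq]
    exact hc.contDiff_convolution_right (ContinuousLinearMap.mul ℝ ℂ) hf (cf_contDiff h)
  · intro hcf
    rw [cv_eq]
    exact hcf.convolution (ContinuousLinearMap.mul ℝ ℂ) hc
  · intro j z
    have e1 := fd h hc hf z (Pi.single j 1)
    have e2 := fd h hc hf z (Pi.single j Complex.I)
    have i1 := ig h hc hf z (Pi.single j 1)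
    have i2 := ig h hc hf z (Pi.single j Complex.I)
    refine ⟨?_, ?_, ?_, ?_⟩
    · unfold dz
      rw [e1, e2, ← integral_const_mul, ← integral_sub i1 (i2.const_mul _), ← integral_div]
      refine integral_congr_ae (Eventually.of_forall fun x => ?_)
      simp only
      ring
    · unfold db
      rw [e1, e2, ← integral_const_mul, ← integral_add i1 (i2.const_mul _), ← integral_div]
      refine integral_congr_ae (Eventually.of_forall fun x => ?_)
      simp only
      ring
    · intro x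
      unfold dz
      rw [ch h, ch h]
      ring
    · intro x
      unfold db
      rw [ch h, ch h]
      ring

end Pool.Agent.Helper13.KP
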