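import Pool.Agent.Helper52.KP.StW

/-!
# Project KP, module RHU: solution of the d-bar problem for the weight `u`
-/

set_option autoImplicit false

namespace Pool.Agent.Helper13.KP

open Pool.Agent.Helper52.KP MeasureTheory Filter
open scoped ContDiff ComplexOrder Topology ComplexConjugate

variable {m : ℕ}

/-! ### The weight `v + t |z|²` -/

private theorem cf_cd {v : (Fin m → ℂ) → ℝ} (h : ContDiff ℝ ∞ v) : ContDiff ℝ ∞ (cf v) :=
  Complex.ofRealCLM.contDiff.comp h

private theorem sq_cd : ContDiff ℝ ∞ (Helper52.KP.sq : (Fin m → ℂ) → ℝ) := by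
  unfold Helper52.KP.sq
  refine ContDiff.sum fun j _ => ?_
  exact (contDiff_apply ℝ ℂ j).norm_sq ℝ

private theorem sq_nn (z : Fin m → ℂ) : 0 ≤ Helper52.KP.sq z := Finset.sum_nonneg fun _ _ => sq_nonneg _

private theorem sq_le {z : Fin m → ℂ} {R : ℝ} (h : ‖z‖ ≤ R) : Helper52.KP.sq z ≤ m * R ^ 2 := by
  unfold Helper52.KP.sq
  calc ∑ j, ‖z j‖ ^ 2 ≤ ∑ _j : Fin m, R ^ 2 := by
        refine Finset.sum_le_sum fun j _ => ?_
        exact pow_le_pow_left₀ (norm_nonneg _) ((norm_le_pi_norm z j).trans h) 2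
    _ = m * R ^ 2 := by simp

private theorem cf_fd (j : Fin m) {f g : (Fin m → ℂ) → ℂ} {z : Fin m → ℂ}
    (hf : DifferentiableAt ℝ f z) (hg : DifferentiableAt ℝ g z) :
    dz j (fun x => f x + g x) z = dz j f z + dz j g z ∧
      db j (fun x => f x + g x) z = db j f z + db j g z := by
  have h : fderiv ℝ (fun x => f x + g x) z = fderiv ℝ f z + fderiv ℝ g z :=
    fderiv_fun_add hf hg
  unfold dz db
  rw [h]
  simp only [add_apply]
  constructor <;> ring

private theorem db_sq (t : ℝ) (k : Fin m) (z : Fin m → ℂ) :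
    db k (cf (fun x => t * Helper52.KP.sq x)) z = (t : ℂ) * z k := by
  have h : HasFDerivAt (fun x : Fin m → ℂ => t * Helper52.KP.sq x)
      (t • ∑ l, (2 • (innerSL ℝ (z l)).comp (ContinuousLinearMap.proj l :
        (Fin m → ℂ) →L[ℝ] ℂ))) z := by
    have h1 : HasFDerivAt (fun x : Fin m → ℂ => Helper52.KP.sq x)
        (∑ l, (2 • (innerSL ℝ (z l)).comp (ContinuousLinearMap.proj l :
          (Fin m → ℂ) →L[ℝ] ℂ))) z := by
      unfold Helper52.KP.sq
      refine HasFDerivAt.fun_sum fun l _ => ?_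
      exact ((ContinuousLinearMap.proj l : (Fin m → ℂ) →L[ℝ] ℂ).hasFDerivAt).norm_sq
    exact h1.const_mul t
  have h2 := (Complex.ofRealCLM.hasFDerivAt.comp z h).fderiv
  have h3 : cf (fun x : Fin m → ℂ => t * Helper52.KP.sq x) =
      (Complex.ofRealCLM : ℝ →L[ℝ] ℂ) ∘ fun x => t * Helper52.KP.sq x := rfl
  unfold db
  rw [h3, h2]
  have h4 : ∀ w : ℂ, (∑ l, (2 : ℕ) • inner ℝ (z l) ((Pi.single k w : Fin m → ℂ) l)) =
      2 * inner ℝ (z k) w := by
    intro w
    rw [Finset.sum_eq_single k]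
    · simp; ring
    · intro l _ hl
      simp [Pi.single_eq_of_ne hl]
    · intro h; exact absurd (Finset.mem_univ _) h
  have h5 : ∀ w : ℂ, (Complex.ofRealCLM ∘SL (t • ∑ l, (2 • (innerSL ℝ (z l)).comp
      (ContinuousLinearMap.proj l : (Fin m → ℂ) →L[ℝ] ℂ)))) (Pi.single k w) =
      ((t * (2 * inner ℝ (z k) w) : ℝ) : ℂ) := by
    intro w
    rw [← h4 w]
    simp
  rw [h5, h5, Complex.inner, Complex.inner]
  apply Complex.ext
  · simp; ring
  · simp; ring

private theorem dz_proj (t : ℂ) (j k : Fin m) (z : Fin m → ℂ) :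
    dz j (fun x => t * x k) z = t * (1 : Matrix (Fin m) (Fin m) ℂ) j k := by
  have h : HasFDerivAt (fun x : Fin m → ℂ => t * x k)
      (t • (ContinuousLinearMap.proj k : (Fin m → ℂ) →L[ℝ] ℂ)) z :=
    ((ContinuousLinearMap.proj k : (Fin m → ℂ) →L[ℝ] ℂ).hasFDerivAt).const_mul t
  unfold dz
  rw [h.fderiv]
  simp only [smul_apply, ContinuousLinearMap.proj_apply, smul_eq_mul]
  by_cases hjk : j = k
  · subst hjk
    simp only [Pi.single_eq_same, Matrix.one_apply_eq]
    linear_combination (-(t / 2)) * Complex.I_sq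
  · have hkj : k ≠ j := fun h => hjk h.symm
    rw [Matrix.one_apply_ne hjk, Pi.single_eq_of_ne hkj, Pi.single_eq_of_ne hkj]
    simp

private theorem db_cd {f : (Fin m → ℂ) → ℂ} (h : ContDiff ℝ ∞ f) (k : Fin m) :
    ContDiff ℝ ∞ (db k f) := by
  have h1 : ContDiff ℝ ∞ (fderiv ℝ f) := h.fderiv_right (by simp)
  unfold db
  exact ((h1.clm_apply contDiff_const).add (contDiff_const.mul (h1.clm_apply contDiff_const))).div_const 2

private theorem hes_sq {v : (Fin m → ℂ) → ℝ} (h : ContDiff ℝ ∞ v) (t : ℝ) (z : Fin m → ℂ) :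
    hes (fun x => v x + t * Helper52.KP.sq x) z = hes v z + (t : ℂ) • (1 : Matrix (Fin m) (Fin m) ℂ) := by
  ext j k
  simp only [hes, Matrix.of_apply, Matrix.add_apply, Matrix.smul_apply, smul_eq_mul]
  have e1 : db k (cf (fun x => v x + t * Helper52.KP.sq x)) = fun x => db k (cf v) x + (t : ℂ) * x k := by
    funext x
    have e2 : cf (fun x => v x + t * Helper52.KP.sq x) = fun x => cf v x + cf (fun x => t * Helper52.KP.sq x) x := by
      funext y; simp [cf]
    have hv : DifferentiableAt ℝ (cf v) x := (cf_cd h).differentiable (by simp) x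
    have hs : DifferentiableAt ℝ (cf (fun x : Fin m → ℂ => t * Helper52.KP.sq x)) x :=
      (cf_cd (contDiff_const.mul sq_cd)).differentiable (by simp) x
    rw [e2, (cf_fd k hv hs).2, db_sq]
  rw [e1]
  have hv : DifferentiableAt ℝ (db k (cf v)) z := (db_cd (cf_cd h) k).differentiable (by simp) z
  have hs : DifferentiableAt ℝ (fun x : Fin m → ℂ => (t : ℂ) * x k) z := by fun_prop
  rw [(cf_fd j hv hs).1, dz_proj]

private theorem hf_add (A : Matrix (Fin m) (Fin m) ℂ) (t : ℝ) (ξ : Fin m → ℂ) :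
    hf (A + (t : ℂ) • (1 : Matrix (Fin m) (Fin m) ℂ)) ξ = hf A ξ + t * Helper52.KP.sq ξ := by
  unfold hf Helper52.KP.sq
  have h : ∀ j, ∑ k, (A + (t : ℂ) • (1 : Matrix (Fin m) (Fin m) ℂ)) j k * ξ j * star (ξ k) =
      (∑ k, A j k * ξ j * star (ξ k)) + ((t * ‖ξ j‖ ^ 2 : ℝ) : ℂ) := by
    intro j
    have h1 : ∀ k, (A + (t : ℂ) • (1 : Matrix (Fin m) (Fin m) ℂ)) j k * ξ j * star (ξ k) =
        A j k * ξ j * star (ξ k) +
          (if j = k then (t : ℂ) * (ξ j * star (ξ k)) else 0) := by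
      intro k
      by_cases hjk : j = k
      · subst hjk
        simp only [Matrix.add_apply, Matrix.smul_apply, Matrix.one_apply_eq, smul_eq_mul, if_true]
        ring
      · simp [Matrix.add_apply, Matrix.one_apply_ne hjk, hjk]
    rw [Finset.sum_congr rfl fun k _ => h1 k, Finset.sum_add_distrib, Finset.sum_ite_eq]
    simp only [Finset.mem_univ, if_true]
    congr 1
    have h2 : ξ j * star (ξ j) = ((‖ξ j‖ ^ 2 : ℝ) : ℂ) := by
      rw [← Complex.normSq_eq_norm_sq, Complex.normSq_eq_conj_mul_self, mul_comm]; rfl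
    rw [h2]
    push_cast
    ring
  rw [Finset.sum_congr rfl fun j _ => h j, Finset.sum_add_distrib, Complex.add_re]
  congr 1
  rw [← Complex.ofReal_sum, Complex.ofReal_re, Finset.mul_sum]

private theorem psd_add {A : Matrix (Fin m) (Fin m) ℂ} (h : Psd A) {t : ℝ} (ht : 0 ≤ t) :
    Psd (A + (t : ℂ) • (1 : Matrix (Fin m) (Fin m) ℂ)) := by
  refine ⟨?_, fun ξ => ?_⟩
  · have h1 : ((t : ℂ) • (1 : Matrix (Fin m) (Fin m) ℂ)).IsHermitian := by
      unfold Matrix.IsHermitian
      rw [Matrix.conjTranspose_smul, Matrix.conjTranspose_one]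
      congr 1
      exact Complex.conj_ofReal t
    exact h.1.add h1
  · rw [hf_add]
    exact add_nonneg (h.2 ξ) (mul_nonneg ht (sq_nn ξ))

/-! ### The torus action -/

private theorem scl_cont (w : Fin m → ℕ) (c : ℂ) : Continuous (scl w c) := by
  unfold scl; fun_prop

private theorem scl_inv (w : Fin m → ℕ) {c : ℂ} (hc : c ≠ 0) (z : Fin m → ℂ) :
    scl w c⁻¹ (scl w c z) = z := by
  funext j
  simp only [scl]
  rw [← mul_assoc, ← mul_pow, inv_mul_cancel₀ hc, one_pow, one_mul]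

private theorem scl_inj (w : Fin m → ℕ) {c : ℂ} (hc : c ≠ 0) : Function.Injective (scl w c) :=
  Function.LeftInverse.injective (scl_inv w hc)

private theorem scl_mp (w : Fin m → ℕ) {c : ℂ} (hc : ‖c‖ = 1) :
    MeasurePreserving (scl w c) volume volume := by
  have h : ∀ j : Fin m, MeasurePreserving (fun x : ℂ => c ^ w j * x) volume volume := by
    intro j
    have h1 : c ^ w j ∈ Submonoid.unitSphere ℂ :=
      mem_sphere_zero_iff_norm.2 (by rw [norm_pow, hc, one_pow])
    exact (rotation ⟨c ^ w j, h1⟩).measurePreserving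
  exact volume_preserving_pi h

private theorem scl_me (w : Fin m → ℕ) {c : ℂ} (hc : c ≠ 0) : MeasurableEmbedding (scl w c) :=
  (scl_cont w c).measurableEmbedding (scl_inj w hc)

private theorem ev_diff (P : MvPolynomial (Fin m) ℂ) : Differentiable ℂ (fun z => ev P z) := by
  induction P using MvPolynomial.induction_on with
  | C a => simp only [ev, MvPolynomial.eval_C]; exact differentiable_const _
  | add p q hp hq => simp only [ev, map_add] at hp hq ⊢; exact hp.add hq
  | mul_X p n hp =>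
    simp only [ev, map_mul, MvPolynomial.eval_X] at hp ⊢
    exact hp.mul (differentiable_apply n)

/-! ### Square integrable functions for the weight `u` -/

private theorem L2_ae {U : Set (Fin m → ℂ)} {ψ : (Fin m → ℂ) → ℝ} (hU : MeasurableSet U)
    (hψ : ContinuousOn ψ U) {f g : (Fin m → ℂ) → ℂ} (a b : ℂ) (hf : L2 U ψ f) (hg : L2 U ψ g) :
    L2 U ψ (fun z => a * f z + b * g z) := by
  have hm : AEStronglyMeasurable (fun z => a * f z + b * g z) (volume.restrict U) :=
    (hf.1.const_mul a).add (hg.1.const_mul b)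
  refine ⟨hm, ?_⟩
  have he : AEStronglyMeasurable (fun z => Real.exp (-ψ z)) (volume.restrict U) :=
    (Real.continuous_exp.comp_continuousOn hψ.neg).aestronglyMeasurable hU
  have hb : IntegrableOn (fun z => (2 * ‖a‖ ^ 2) * (‖f z‖ ^ 2 * Real.exp (-ψ z)) +
      (2 * ‖b‖ ^ 2) * (‖g z‖ ^ 2 * Real.exp (-ψ z))) U :=
    (hf.2.const_mul _).add (hg.2.const_mul _)
  refine hb.mono' ((hm.norm.pow 2).mul he) (Eventually.of_forall fun z => ?_)
  rw [Real.norm_of_nonneg (by positivity)]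
  have h1 : ‖a * f z + b * g z‖ ≤ ‖a‖ * ‖f z‖ + ‖b‖ * ‖g z‖ := by
    calc ‖a * f z + b * g z‖ ≤ ‖a * f z‖ + ‖b * g z‖ := norm_add_le _ _
      _ = _ := by rw [norm_mul, norm_mul]
  have h2 : ‖a * f z + b * g z‖ ^ 2 ≤ 2 * ‖a‖ ^ 2 * ‖f z‖ ^ 2 + 2 * ‖b‖ ^ 2 * ‖g z‖ ^ 2 := by
    have h3 := pow_le_pow_left₀ (norm_nonneg _) h1 2
    nlinarith [sq_nonneg (‖a‖ * ‖f z‖ - ‖b‖ * ‖g z‖)]
  calc ‖a * f z + b * g z‖ ^ 2 * Real.exp (-ψ z) ≤
      (2 * ‖a‖ ^ 2 * ‖f z‖ ^ 2 + 2 * ‖b‖ ^ 2 * ‖g z‖ ^ 2) * Real.exp (-ψ z) :=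
        mul_le_mul_of_nonneg_right h2 (Real.exp_pos _).le
    _ = _ := by ring

/-- The minimizer is homogeneous. -/
private theorem homog {C : Cone} (hC : Good C) (hUo : IsOpen C.U) (hU0 : volume (C.U)ᶜ = 0)
    {a : ℕ} {G h : (Fin C.m → ℂ) → ℂ} (hG : L2 C.U C.u G)
    (hGh : ∀ (c : ℂ), ‖c‖ = 1 → ∀ z ∈ C.U, G (scl C.w c z) = c ^ a * G z)
    (hd : Differentiable ℂ h) (hh : L2 C.U C.u h)
    (hmin : ∀ h'' : (Fin C.m → ℂ) → ℂ, Differentiable ℂ h'' → L2 C.U C.u h'' →
      nrm C.U C.u (fun z => G z - h z) ≤ nrm C.U C.u (fun z => G z - h'' z))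
    (c : ℂ) (hc : ‖c‖ = 1) (z : Fin C.m → ℂ) : h (scl C.w c z) = c ^ a * h z := by
  have hUm : MeasurableSet C.U := hUo.measurableSet
  have hu : ContinuousOn C.u C.U := hC.usm.continuousOn
  have hc0 : c ≠ 0 := by rintro rfl; simp at hc
  have hca : c ^ a ≠ 0 := pow_ne_zero _ hc0
  have hcn : ‖(c ^ a)⁻¹‖ = 1 := by rw [norm_inv, norm_pow, hc, one_pow, inv_one]
  set T := scl C.w c with hT
  have hmp : MeasurePreserving T volume volume := scl_mp C.w hc
  have hme : MeasurableEmbedding T := scl_me C.w hc0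
  have hpre : T ⁻¹' C.U = C.U := by
    ext x
    constructor
    · intro hx
      have h1 := hC.sclU c⁻¹ (inv_ne_zero hc0) _ hx
      rwa [hT, scl_inv C.w hc0] at h1
    · intro hx
      exact hC.sclU c hc0 x hx
  have huT : ∀ x ∈ C.U, C.u (T x) = C.u x := by
    intro x hx
    rw [hT, hC.uhom x hx c hc0, hc, one_mul]
  -- the function `h2`
  set h2 : (Fin C.m → ℂ) → ℂ := fun x => (c ^ a)⁻¹ * h (T x) with hh2
  have hTd : Differentiable ℂ T := by
    rw [hT]; unfold scl; fun_prop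
  have h2d : Differentiable ℂ h2 := (hd.comp hTd).const_mul _
  have h2L : L2 C.U C.u h2 := by
    refine ⟨h2d.continuous.aestronglyMeasurable, ?_⟩
    have e1 : IntegrableOn ((fun x => ‖h x‖ ^ 2 * Real.exp (-C.u x)) ∘ T) (T ⁻¹' C.U) :=
      (hmp.integrableOn_comp_preimage hme).2 hh.2
    rw [hpre] at e1
    refine e1.congr_fun (fun x hx => ?_) hUm
    simp only [Function.comp_apply, hh2, norm_mul, hcn, one_mul, huT x hx]
  have h2n : nrm C.U C.u (fun x => G x - h2 x) = nrm C.U C.u (fun x => G x - h x) := by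
    unfold nrm
    have e1 := hmp.setIntegral_preimage_emb hme
      (fun x => ‖G x - h x‖ ^ 2 * Real.exp (-C.u x)) C.U
    rw [hpre] at e1
    rw [← e1]
    refine setIntegral_congr_fun hUm fun x hx => ?_
    have e2 : G x - h2 x = (c ^ a)⁻¹ * (G (T x) - h (T x)) := by
      rw [hT, hGh c hc x hx]
      simp only [hh2, hT]
      field_simp
    simp only [e2, norm_mul, hcn, one_mul, huT x hx]
  -- the midpoint
  have hmd : Differentiable ℂ (fun x => (1 / 2 : ℂ) * h x + (1 / 2 : ℂ) * h2 x) :=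
    (hd.const_mul _).add (h2d.const_mul _)
  have hmL : L2 C.U C.u (fun x => (1 / 2 : ℂ) * h x + (1 / 2 : ℂ) * h2 x) :=
    L2_ae hUm hu _ _ hh h2L
  have hle := hmin _ hmd hmL
  have i1 : L2 C.U C.u (fun x => 1 * G x + (-1) * h x) := L2_ae hUm hu _ _ hG hh
  have i2 : L2 C.U C.u (fun x => 1 * G x + (-1) * h2 x) := L2_ae hUm hu _ _ hG h2L
  have i3 : L2 C.U C.u (fun x => 1 * h x + (-1) * h2 x) := L2_ae hUm hu _ _ hh h2L
  have f1 : IntegrableOn (fun x => ‖G x - h x‖ ^ 2 * Real.exp (-C.u x)) C.U := by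
    refine i1.2.congr_fun (fun x _ => ?_) hUm
    simp only [one_mul, neg_one_mul, sub_eq_add_neg]
  have f2 : IntegrableOn (fun x => ‖G x - h2 x‖ ^ 2 * Real.exp (-C.u x)) C.U := by
    refine i2.2.congr_fun (fun x _ => ?_) hUm
    simp only [one_mul, neg_one_mul, sub_eq_add_neg]
  have f3 : IntegrableOn (fun x => ‖h x - h2 x‖ ^ 2 * Real.exp (-C.u x)) C.U := by
    refine i3.2.congr_fun (fun x _ => ?_) hUm
    simp only [one_mul, neg_one_mul, sub_eq_add_neg]
  have hpar : nrm C.U C.u (fun x => G x - ((1 / 2 : ℂ) * h x + (1 / 2 : ℂ) * h2 x)) =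
      (1 / 2) * nrm C.U C.u (fun x => G x - h x) + (1 / 2) * nrm C.U C.u (fun x => G x - h2 x) -
        (1 / 4) * nrm C.U C.u (fun x => h x - h2 x) := by
    have f12 : Integrable (fun x => (1 / 2) * (‖G x - h x‖ ^ 2 * Real.exp (-C.u x)) +
        (1 / 2) * (‖G x - h2 x‖ ^ 2 * Real.exp (-C.u x))) (volume.restrict C.U) :=
      (f1.const_mul _).add (f2.const_mul _)
    have e0 : ∫ x in C.U, (((1 / 2) * (‖G x - h x‖ ^ 2 * Real.exp (-C.u x)) +
        (1 / 2) * (‖G x - h2 x‖ ^ 2 * Real.exp (-C.u x))) -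
        (1 / 4) * (‖h x - h2 x‖ ^ 2 * Real.exp (-C.u x))) =
        (1 / 2) * (∫ x in C.U, ‖G x - h x‖ ^ 2 * Real.exp (-C.u x)) +
        (1 / 2) * (∫ x in C.U, ‖G x - h2 x‖ ^ 2 * Real.exp (-C.u x)) -
        (1 / 4) * (∫ x in C.U, ‖h x - h2 x‖ ^ 2 * Real.exp (-C.u x)) := by
      rw [integral_sub f12 (f3.const_mul _), integral_add (f1.const_mul _) (f2.const_mul _),
        integral_const_mul, integral_const_mul, integral_const_mul]
    unfold nrm
    rw [← e0]
    refine setIntegral_congr_fun hUm fun x _ => ?_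
    simp only
    have e := parallelogram_law_with_norm ℝ (G x - h x) (G x - h2 x)
    have e3 : G x - ((1 / 2 : ℂ) * h x + (1 / 2 : ℂ) * h2 x) =
        (1 / 2 : ℂ) * (G x - h x + (G x - h2 x)) := by ring
    have e4 : G x - h x - (G x - h2 x) = -(h x - h2 x) := by ring
    rw [e4, norm_neg] at e
    rw [e3, norm_mul]
    have e5 : ‖(1 / 2 : ℂ)‖ = 1 / 2 := by norm_num
    rw [e5]
    linear_combination (1 / 4 * Real.exp (-C.u x)) * e
  rw [h2n] at hpar
  have hn0 : 0 ≤ nrm C.U C.u (fun x => h x - h2 x) := by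
    unfold nrm
    exact setIntegral_nonneg hUm fun x _ => by positivity
  have hz : nrm C.U C.u (fun x => h x - h2 x) = 0 := by linarith
  unfold nrm at hz
  rw [setIntegral_eq_zero_iff_of_nonneg_ae (Eventually.of_forall fun x => by positivity) f3] at hz
  have hrest : volume.restrict C.U = volume := Measure.restrict_eq_self_of_ae_mem (by
    rw [ae_iff]; exact hU0)
  rw [hrest] at hz
  have hae : h =ᵐ[volume] h2 := by
    filter_upwards [hz] with x hx
    have h3 : ‖h x - h2 x‖ ^ 2 * Real.exp (-C.u x) = 0 := hx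
    have h4 : ‖h x - h2 x‖ ^ 2 = 0 := by
      rcases mul_eq_zero.1 h3 with h5 | h5
      · exact h5
      · exact absurd h5 (Real.exp_pos _).ne'
    have h6 : ‖h x - h2 x‖ = 0 := pow_eq_zero_iff (two_ne_zero) |>.1 h4
    exact sub_eq_zero.1 (norm_eq_zero.1 h6)
  have heq : h = h2 := (hd.continuous.ae_eq_iff_eq volume h2d.continuous).1 hae
  have h7 : h z = (c ^ a)⁻¹ * h (T z) := congrFun heq z
  rw [h7, ← mul_assoc, mul_inv_cancel₀ hca, one_mul]

theorem hRHU (hREG : StREG) (hPRJ : StPRJ) (hLIM : StLIM) (hNUL : StNUL) : StRHU := by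
  intro C hC k G hG hGh
  have hUo : IsOpen C.U := by
    have h1 : Continuous fun z : Fin C.m → ℂ => ev C.Δ z := MvPolynomial.continuous_eval _
    exact isOpen_ne_fun h1 continuous_const
  have hU0 : volume (C.U)ᶜ = 0 := by
    have h1 : (C.U)ᶜ = {z : Fin C.m → ℂ | ev C.Δ z = 0} := by
      ext z; simp [Cone.U]
    rw [h1]
    exact hNUL C.m C.Δ hC.Δ0
  have hUm : MeasurableSet C.U := hUo.measurableSet
  have hu : ContinuousOn C.u C.U := hC.usm.continuousOn
  have hrest : volume.restrict C.U = volume := Measure.restrict_eq_self_of_ae_mem (by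
    rw [ae_iff]; exact hU0)
  obtain ⟨v, vsm, vpsd, vge, -, vbd, vnn, vcv⟩ := hREG C hC
  let t : ℕ → ℝ := fun i => 1 / ((i : ℝ) + 1)
  have t0 : ∀ i, 0 < t i := fun i => by positivity
  have t1 : ∀ i, t i ≤ 1 := fun i => by
    simp only [t]
    rw [div_le_one (by positivity)]
    have : (0 : ℝ) ≤ i := Nat.cast_nonneg i
    linarith
  have tlim : Tendsto t atTop (𝓝 0) := tendsto_one_div_add_atTop_nhds_zero_nat
  let ψ : ℕ → (Fin C.m → ℂ) → ℝ := fun i z => v i z + t i * Helper52.KP.sq z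
  have ψsm : ∀ i, ContDiff ℝ ∞ (ψ i) := fun i => (vsm i).add (contDiff_const.mul sq_cd)
  have ψhes : ∀ i z, hes (ψ i) z = hes (v i) z + (t i : ℂ) • (1 : Matrix _ _ ℂ) :=
    fun i z => hes_sq (vsm i) (t i) z
  have ψpsd : ∀ i z, Psd (hes (ψ i) z) := fun i z => by
    rw [ψhes]; exact psd_add (vpsd i z) (t0 i).le
  have ψlow : ∀ i z ξ, t i * Helper52.KP.sq ξ ≤ hf (hes (ψ i) z) ξ := fun i z ξ => by
    rw [ψhes, hf_add]
    linarith [(vpsd i z).2 ξ]
  have ψge : ∀ i, ∀ z ∈ C.U, C.u z ≤ ψ i z := fun i z hz => by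
    have h1 := vge i z hz
    have h2 := mul_nonneg (t0 i).le (sq_nn z)
    simp only [ψ]
    linarith
  have ψbd : ∀ R : ℝ, ∃ B : ℝ, ∀ i z, ‖z‖ ≤ R → ψ i z ≤ B := fun R => by
    obtain ⟨B, hB⟩ := vbd R
    refine ⟨B + C.m * R ^ 2, fun i z hz => ?_⟩
    have h1 := hB i z hz
    have h2 := sq_le hz
    have h3 : t i * Helper52.KP.sq z ≤ 1 * Helper52.KP.sq z :=
      mul_le_mul_of_nonneg_right (t1 i) (sq_nn z)
    simp only [ψ]
    linarith
  have ψcv : ∀ K ⊆ C.U, IsCompact K → TendstoUniformlyOn ψ C.u atTop K ∧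
      ∀ j k, TendstoUniformlyOn (fun i z => hes (ψ i) z j k) (fun z => hes C.u z j k) atTop K := by
    intro K hK hKc
    obtain ⟨h1, -, h2⟩ := vcv K hK hKc
    obtain ⟨R, hR⟩ := hKc.isBounded.exists_norm_le
    constructor
    · rw [Metric.tendstoUniformlyOn_iff] at h1 ⊢
      intro ε hε
      have h3 : Tendsto (fun i => t i * (C.m * R ^ 2)) atTop (𝓝 0) := by
        simpa using tlim.mul_const ((C.m : ℝ) * R ^ 2)
      filter_upwards [h1 (ε / 2) (half_pos hε), h3.eventually (gt_mem_nhds (half_pos hε))] with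
        i hi hi' z hz
      have h4 := hi z hz
      rw [Real.dist_eq] at h4 ⊢
      have h5 : t i * Helper52.KP.sq z ≤ t i * (C.m * R ^ 2) :=
        mul_le_mul_of_nonneg_left (sq_le (hR z hz)) (t0 i).le
      have h6 := mul_nonneg (t0 i).le (sq_nn z)
      rw [abs_lt] at h4 ⊢
      simp only [ψ]
      constructor <;> linarith [h4.1, h4.2]
    · intro j k
      have h3 := h2 j k
      rw [Metric.tendstoUniformlyOn_iff] at h3 ⊢
      intro ε hε
      filter_upwards [h3 (ε / 2) (half_pos hε), tlim.eventually (gt_mem_nhds (half_pos hε))] with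
        i hi hi' z hz
      have h4 := hi z hz
      rw [dist_eq_norm] at h4 ⊢
      rw [ψhes]
      have h5 : ‖(t i : ℂ) * (1 : Matrix (Fin C.m) (Fin C.m) ℂ) j k‖ ≤ t i := by
        rw [norm_mul, Complex.norm_real, Real.norm_of_nonneg (t0 i).le]
        have h6 : ‖(1 : Matrix (Fin C.m) (Fin C.m) ℂ) j k‖ ≤ 1 := by
          by_cases hjk : j = k
          · subst hjk; rw [Matrix.one_apply_eq]; simp
          · rw [Matrix.one_apply_ne hjk]; simp
        calc t i * ‖(1 : Matrix (Fin C.m) (Fin C.m) ℂ) j k‖ ≤ t i * 1 :=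
              mul_le_mul_of_nonneg_left h6 (t0 i).le
          _ = t i := mul_one _
      calc ‖hes C.u z j k - (hes (v i) z + (t i : ℂ) •
          (1 : Matrix (Fin C.m) (Fin C.m) ℂ) : Matrix (Fin C.m) (Fin C.m) ℂ) j k‖ =
          ‖(hes C.u z j k - hes (v i) z j k) -
            (t i : ℂ) * (1 : Matrix (Fin C.m) (Fin C.m) ℂ) j k‖ := by
            congr 1
            simp only [Matrix.add_apply, Matrix.smul_apply, smul_eq_mul]
            ring
        _ ≤ ‖hes C.u z j k - hes (v i) z j k‖ +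
            ‖(t i : ℂ) * (1 : Matrix (Fin C.m) (Fin C.m) ℂ) j k‖ := norm_sub_le _ _
        _ < ε := by linarith
  have hGψ : ∀ i, L2 Set.univ (ψ i) G := fun i => by
    have hGm : AEStronglyMeasurable G volume := by
      have := hG.1
      rwa [hrest] at this
    refine ⟨by rwa [Measure.restrict_univ], ?_⟩
    rw [integrableOn_univ]
    have h1 : Integrable (fun z => ‖G z‖ ^ 2 * Real.exp (-C.u z)) volume := by
      have := hG.2
      unfold IntegrableOn at this
      rwa [hrest] at this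
    refine h1.mono' ((hGm.norm.pow 2).mul
      (Real.continuous_exp.comp (ψsm i).continuous.neg).aestronglyMeasurable) ?_
    have h2 : ∀ᵐ z : Fin C.m → ℂ, z ∈ C.U := by rw [ae_iff]; exact hU0
    filter_upwards [h2] with z hz
    rw [Real.norm_of_nonneg (by positivity)]
    refine mul_le_mul_of_nonneg_left ?_ (by positivity)
    exact Real.exp_le_exp.2 (neg_le_neg (ψge i z hz))
  choose V Γ h hV hΓ hd hL hWT hint hineq horth using fun i =>
    hPRJ C.m (ψ i) (ψsm i) (t i) (t0 i) (ψpsd i) (ψlow i) G (hGψ i)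
  obtain ⟨β, γ', h', σ, -, h'd, -, h'L, hβ, hγ, hWT', hint', hle, hmin⟩ :=
    hLIM C.m C.U hUo hU0 C.u ψ hC.usm (fun z hz => (hC.uhes z hz).1) ψsm ψpsd ψge ψbd ψcv G hG
      V Γ h hV hΓ (fun i => ⟨hd i, hL i, hWT i, hint i, hineq i, horth i⟩)
  have hhom := homog hC hUo hU0 hG hGh h'd h'L hmin
  obtain ⟨a, b, -, hab⟩ := hC.ubd
  obtain ⟨s, hs, hsJ⟩ := hC.extd k h' h'd (fun c z hc => hhom c hc z) ⟨b, by
    have h1 : Integrable (fun z => ‖h' z‖ ^ 2 * Real.exp (-C.u z)) volume := by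
      have := h'L.2
      unfold IntegrableOn at this
      rwa [hrest] at this
    have hszc : Continuous C.sz := by
      unfold Cone.sz
      exact continuous_finsetSum _ fun i _ => (MvPolynomial.continuous_eval _).norm
    refine h1.mono' (((h'd.continuous.norm.pow 2).mul
      (Real.continuous_exp.comp (continuous_const.mul hszc).neg)).aestronglyMeasurable) ?_
    have h2 : ∀ᵐ z : Fin C.m → ℂ, z ∈ C.U := by rw [ae_iff]; exact hU0
    filter_upwards [h2] with z hz
    rw [Real.norm_of_nonneg (by positivity)]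
    refine mul_le_mul_of_nonneg_left ?_ (by positivity)
    exact Real.exp_le_exp.2 (neg_le_neg (hab z hz).2)⟩
  have hfun : h' = fun z => ev s z * ev C.J z := funext hsJ
  subst hfun
  refine ⟨s, hs, β, γ', h'L, hβ, hγ, hWT', hint', hle, fun s' hs' hL' => ?_⟩
  exact hmin _ ((ev_diff s').mul (ev_diff C.J)) hL'

end Pool.Agent.Helper13.KP
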