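import Pool.Agent.Helper68.KP.StR

/-!
# Project KP, module TOT: total weights
-/

set_option autoImplicit false

namespace Pool.Agent.Helper13.KP

open Pool.Agent.Helper52.KP Pool.Agent.Helper68.KP Filter Topology

/-! ### Counting -/

private theorem tot_fin {V : Type} [AddCommGroup V] [Module ℂ V] {N : ℕ} {b : Fin N → V}
    (hb : LinearIndependent ℂ b) (s : Set (Fin N)) [DecidablePred (· ∈ s)] :
    Module.finrank ℂ (Submodule.span ℂ (b '' s)) = (Finset.univ.filter (· ∈ s)).card := by
  classical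
  have h1 : LinearIndependent ℂ (b ∘ (Subtype.val : s → Fin N)) :=
    hb.comp _ Subtype.val_injective
  have h2 := finrank_span_eq_card h1
  rw [Set.range_comp, Subtype.range_val] at h2
  rw [h2, Fintype.card_subtype]

private theorem tot_sum {N : ℕ} (u : Fin N → ℕ) :
    ∑ᶠ l : ℕ, ((Finset.univ.filter fun j => l + 1 ≤ u j).card : ℝ) = ∑ j, (u j : ℝ) := by
  classical
  obtain ⟨L, hL⟩ : ∃ L : ℕ, ∀ j, u j ≤ L :=
    ⟨∑ j, u j, fun j => Finset.single_le_sum (fun _ _ => Nat.zero_le _) (Finset.mem_univ j)⟩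
  have h1 : (Function.support fun l : ℕ =>
      ((Finset.univ.filter fun j => l + 1 ≤ u j).card : ℝ)) ⊆ (Finset.range L : Finset ℕ) := by
    intro l hl
    simp only [Finset.coe_range, Set.mem_Iio]
    by_contra hcon
    push Not at hcon
    apply hl
    simp only [Nat.cast_eq_zero, Finset.card_eq_zero, Finset.filter_eq_empty_iff]
    intro j _ hj
    have := hL j
    omega
  rw [finsum_eq_sum_of_support_subset _ h1]
  have h2 : ∀ l, ((Finset.univ.filter fun j => l + 1 ≤ u j).card : ℝ) =
      ∑ j, if l + 1 ≤ u j then (1 : ℝ) else 0 := fun l => by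
    rw [Finset.card_filter]
    push_cast
    rfl
  simp_rw [h2]
  rw [Finset.sum_comm]
  refine Finset.sum_congr rfl fun j _ => ?_
  rw [← Finset.sum_filter, Finset.sum_const, nsmul_eq_mul, mul_one]
  congr 1
  have h3 : (Finset.range L).filter (fun l => l + 1 ≤ u j) = Finset.range (u j) := by
    ext l
    simp only [Finset.mem_filter, Finset.mem_range]
    have := hL j
    omega
  rw [h3, Finset.card_range]

/-- two families with the same counting functions have the same sum -/
private theorem tot_cnt {N N' : ℕ} (mu : Fin N → ℝ) (w : Fin N' → ℝ)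
    (h : ∀ y : ℝ, (Finset.univ.filter fun j => y ≤ mu j).card =
      (Finset.univ.filter fun j => y ≤ w j).card) : ∑ j, mu j = ∑ j, w j := by
  classical
  let S : Finset ℝ := Finset.univ.image mu ∪ Finset.univ.image w
  have hmS : ∀ j, mu j ∈ S := fun j =>
    Finset.mem_union_left _ (Finset.mem_image_of_mem _ (Finset.mem_univ j))
  have hwS : ∀ j, w j ∈ S := fun j =>
    Finset.mem_union_right _ (Finset.mem_image_of_mem _ (Finset.mem_univ j))
  have hlt : ∀ x : ℝ, (Finset.univ.filter fun j => x < mu j).card =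
      (Finset.univ.filter fun j => x < w j).card := by
    intro x
    by_cases hT : (S.filter fun t => x < t).Nonempty
    · set t0 := (S.filter fun t => x < t).min' hT with ht0
      have h1 : x < t0 := (Finset.mem_filter.1 (Finset.min'_mem _ hT)).2
      have h2 : ∀ t ∈ S, (x < t ↔ t0 ≤ t) := fun t ht =>
        ⟨fun hx => Finset.min'_le _ _ (Finset.mem_filter.2 ⟨ht, hx⟩), fun hx => h1.trans_le hx⟩
      have h3 := h t0
      rw [Finset.filter_congr fun j _ => h2 (mu j) (hmS j),
        Finset.filter_congr fun j _ => h2 (w j) (hwS j)]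
      exact h3
    · rw [Finset.not_nonempty_iff_eq_empty, Finset.filter_eq_empty_iff] at hT
      rw [Finset.filter_eq_empty_iff.2 fun j _ => hT (hmS j),
        Finset.filter_eq_empty_iff.2 fun j _ => hT (hwS j), Finset.card_empty, Finset.card_empty]
  have heq : ∀ x : ℝ, (Finset.univ.filter fun j => mu j = x).card =
      (Finset.univ.filter fun j => w j = x).card := by
    intro x
    have e1 : (Finset.univ.filter fun j => x ≤ mu j).card =
        (Finset.univ.filter fun j => x < mu j).card +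
          (Finset.univ.filter fun j => mu j = x).card := by
      rw [← Finset.card_union_of_disjoint]
      · congr 1
        ext j
        simp only [Finset.mem_filter, Finset.mem_univ, true_and, Finset.mem_union]
        rw [le_iff_lt_or_eq, eq_comm (a := x)]
      · rw [Finset.disjoint_filter]
        intro j _ h1 h2
        exact absurd h2 h1.ne'
    have e2 : (Finset.univ.filter fun j => x ≤ w j).card =
        (Finset.univ.filter fun j => x < w j).card +
          (Finset.univ.filter fun j => w j = x).card := by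
      rw [← Finset.card_union_of_disjoint]
      · congr 1
        ext j
        simp only [Finset.mem_filter, Finset.mem_univ, true_and, Finset.mem_union]
        rw [le_iff_lt_or_eq, eq_comm (a := x)]
      · rw [Finset.disjoint_filter]
        intro j _ h1 h2
        exact absurd h2 h1.ne'
    have e3 := h x
    have e4 := hlt x
    omega
  have s1 : ∑ j, mu j = ∑ x ∈ S, ((Finset.univ.filter fun j => mu j = x).card : ℝ) * x := by
    rw [← Finset.sum_fiberwise_of_maps_to (s := Finset.univ) (t := S) (g := mu)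
      (fun j _ => hmS j) (fun j => mu j)]
    refine Finset.sum_congr rfl fun x _ => ?_
    rw [Finset.sum_congr rfl fun j hj => (Finset.mem_filter.1 hj).2, Finset.sum_const,
      nsmul_eq_mul]
  have s2 : ∑ j, w j = ∑ x ∈ S, ((Finset.univ.filter fun j => w j = x).card : ℝ) * x := by
    rw [← Finset.sum_fiberwise_of_maps_to (s := Finset.univ) (t := S) (g := w)
      (fun j _ => hwS j) (fun j => w j)]
    refine Finset.sum_congr rfl fun x _ => ?_
    rw [Finset.sum_congr rfl fun j hj => (Finset.mem_filter.1 hj).2, Finset.sum_const,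
      nsmul_eq_mul]
  rw [s1, s2]
  exact Finset.sum_congr rfl fun x _ => by rw [heq x]

/-! ### Traces -/

private theorem tot_tr {V : Type} [AddCommGroup V] [Module ℂ V] {N : ℕ} {e : Fin N → V}
    (hli : LinearIndependent ℂ e) (hsp : Submodule.span ℂ (Set.range e) = ⊤) (T : V →ₗ[ℂ] V)
    (w : Fin N → ℝ) (hT : ∀ j, T (e j) = (w j : ℂ) • e j) :
    LinearMap.trace ℂ V T = ((∑ j, w j : ℝ) : ℂ) := by
  classical
  let b : Module.Basis (Fin N) ℂ V := Module.Basis.mk hli hsp.ge
  rw [LinearMap.trace_eq_matrix_trace ℂ b T, Matrix.trace]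
  push_cast
  refine Finset.sum_congr rfl fun j _ => ?_
  rw [Matrix.diag_apply, LinearMap.toMatrix_apply]
  have h1 : b j = e j := Module.Basis.mk_apply hli hsp.ge j
  rw [h1, hT, ← h1, map_smul, Module.Basis.repr_self]
  simp

private theorem tot_tr3 {V : Type} [AddCommGroup V] [Module ℂ V] {N : ℕ} {e e' e'' : Fin N → V}
    (hli : LinearIndependent ℂ e) (hsp : Submodule.span ℂ (Set.range e) = ⊤)
    (hli' : LinearIndependent ℂ e') (hsp' : Submodule.span ℂ (Set.range e') = ⊤)
    (hli'' : LinearIndependent ℂ e'') (hsp'' : Submodule.span ℂ (Set.range e'') = ⊤)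
    (T T' : V →ₗ[ℂ] V) (w w' w'' : Fin N → ℝ) (hT : ∀ j, T (e j) = (w j : ℂ) • e j)
    (hT' : ∀ j, T' (e' j) = (w' j : ℂ) • e' j)
    (hT'' : ∀ j, (T' - T) (e'' j) = (w'' j : ℂ) • e'' j) :
    ∑ j, w' j = ∑ j, w j + ∑ j, w'' j := by
  have h1 := tot_tr hli hsp T w hT
  have h2 := tot_tr hli' hsp' T' w' hT'
  have h3 := tot_tr hli'' hsp'' (T' - T) w'' hT''
  rw [map_sub, h1, h2] at h3
  have h4 : ((∑ j, w' j : ℝ) : ℂ) = ((∑ j, w j + ∑ j, w'' j : ℝ) : ℂ) := by
    rw [Complex.ofReal_add, ← h3]
    ring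
  exact Complex.ofReal_injective h4

section

variable {A : Type} [CommRing A] [Algebra ℂ A] {E : ℕ → Submodule ℂ A} {ip : A → A → ℂ}

private theorem tot_DD {W W' : ∀ k, E k →ₗ[ℂ] E k} (h : DD E W) (h' : DD E W') :
    DD E (fun k => W' k - W k) := by
  intro k k' f f' g hg
  simp only [LinearMap.sub_apply, Submodule.coe_sub]
  rw [h k k' f f' g hg, h' k k' f f' g hg]
  ring

private theorem tot_SA (hH : HF E ip) {W W' : ∀ k, E k →ₗ[ℂ] E k} (h : SA ip W)
    (h' : SA ip W') : SA ip (fun k => W' k - W k) := by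
  intro k f g
  have hs : ∀ a b c : E k, ip ((a - b : E k) : A) c = ip a c - ip b c := by
    intro a b c
    have e1 : ((a - b : E k) : A) = (a : A) + (-1 : ℂ) • (b : A) := by
      rw [Submodule.coe_sub, neg_one_smul, sub_eq_add_neg]
    rw [e1, hH.add k _ a.2 _ ((E k).smul_mem _ b.2) _ c.2, hH.smul k _ _ b.2 _ c.2]
    ring
  have hs' : ∀ a b c : E k, ip (c : A) ((a - b : E k) : A) = ip c a - ip c b := by
    intro a b c
    rw [hH.symm k _ (a - b).2 _ c.2, hs, star_sub, ← hH.symm k _ a.2 _ c.2,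
      ← hH.symm k _ b.2 _ c.2]
  simp only [LinearMap.sub_apply]
  rw [hs, hs', h k f g, h' k f g]

end

theorem hTOT (hEIG : StEIG) (hEGB : StEGB) : StTOT := by
  intro A _ _ _ E ip M Λ F hSG hHF hFF W K ε W' hK hε hW hDD' hSA' hEB hFle δ hδ
  classical
  refine hK.frequently (Eventually.frequently ?_)
  have hδ2 : (0 : ℝ) < δ / 2 := by positivity
  filter_upwards [hEB (δ / 2) hδ2, hε.eventually (gt_mem_nhds (by positivity : (0 : ℝ) < (δ / 2) ^ 2))]
    with n hEBn hεn
  obtain ⟨hDDn, hSAn, N, b, lam, mu, hbli, hbF, hbG, hbs⟩ := hW n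
  set k := K n with hk
  have := hSG.fd k
  -- eigenbases
  obtain ⟨e, w, -, hew, heli, hesp, heG⟩ := hEIG A E ip k (hSG.fd k) hHF (W n) hSAn
  obtain ⟨e', w', -, hew', heli', hesp', heG'⟩ := hEIG A E ip k (hSG.fd k) hHF W' hSA'
  obtain ⟨e'', w'', -, hew'', heli'', hesp'', -⟩ :=
    hEIG A E ip k (hSG.fd k) hHF (fun k => W' k - W n k) (tot_SA hHF hSAn hSA')
  have hEBk := hEGB A E ip M hSG hHF (fun k => W' k - W n k) (tot_DD hDDn hDD')
    (tot_SA hHF hSAn hSA') (-(δ / 2)) (δ / 2) hEBn k
  have hinj : Function.Injective (fun x : E k => (x : A)) := Subtype.val_injective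
  have hcoe : ∀ {p : ℕ} {v : Fin p → E k}, LinearIndependent ℂ v →
      LinearIndependent ℂ (fun j => (v j : A)) := by
    intro p v hv
    exact hv.map' (E k).subtype (Submodule.ker_subtype _)
  -- the dimension
  have hN : N = Module.finrank ℂ (E k) := by
    have h1 := hbF 0
    rw [hFF.zero] at h1
    have h2 := tot_fin hbli {j | 0 ≤ lam j}
    rw [← h1] at h2
    rw [h2]
    simp
  -- traces
  have ht : ∑ j, w' j = ∑ j, w j + ∑ j, w'' j :=
    tot_tr3 heli hesp heli' hesp' heli'' hesp'' (W n k) (W' k) w w' w'' hew hew' hew''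
  -- the eigenvalues of the difference are small
  have h3 : ∑ j, w'' j ≤ (δ / 2) * k * Module.finrank ℂ (E k) := by
    have h1 : ∀ j, w'' j ≤ k * (δ / 2) := by
      intro j
      refine (hEBk (e'' j) (w'' j) (heli''.ne_zero j) (hew'' j)).2
    calc ∑ j, w'' j ≤ ∑ _j : Fin (Module.finrank ℂ (E k)), (k : ℝ) * (δ / 2) :=
          Finset.sum_le_sum fun j _ => h1 j
      _ = _ := by
          rw [Finset.sum_const, Finset.card_univ, Fintype.card_fin, nsmul_eq_mul]
          ring
  -- the sum of the eigenvalues of `W n` is the sum of the `mu j`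
  have h4 : ∑ j, w j = ∑ j, mu j := by
    refine tot_cnt w mu fun y => ?_
    have e1 := tot_fin (hcoe heli) {j | y ≤ w j}
    have e2 := tot_fin hbli {j | y ≤ mu j}
    rw [← heG y] at e1
    rw [← hbG y, e1] at e2
    simpa using e2
  -- comparison of `mu` and `lam`
  have h5 : ∑ j, mu j ≤ ∑ j, (lam j : ℝ) + (δ / 2) * k * Module.finrank ℂ (E k) := by
    have e1 : (∑ j, ((lam j : ℝ) - mu j)) ^ 2 ≤ N * ∑ j, ((lam j : ℝ) - mu j) ^ 2 := by
      have := sq_sum_le_card_mul_sum_sq (s := (Finset.univ : Finset (Fin N)))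
        (f := fun j => (lam j : ℝ) - mu j)
      simpa using this
    have e2 : (∑ j, ((lam j : ℝ) - mu j)) ^ 2 ≤ ((δ / 2) * k * N) ^ 2 := by
      refine e1.trans ?_
      calc (N : ℝ) * ∑ j, ((lam j : ℝ) - mu j) ^ 2 ≤ N * (ε n * (k : ℝ) ^ 2 * N) :=
            mul_le_mul_of_nonneg_left hbs (Nat.cast_nonneg _)
        _ = ε n * ((k : ℝ) ^ 2 * (N : ℝ) ^ 2) := by ring
        _ ≤ (δ / 2) ^ 2 * ((k : ℝ) ^ 2 * (N : ℝ) ^ 2) :=
            mul_le_mul_of_nonneg_right hεn.le (by positivity)
        _ = _ := by ring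
    have e3 := abs_le_of_sq_le_sq' e2 (by positivity)
    have e4 := e3.1
    rw [Finset.sum_sub_distrib] at e4
    rw [← hN]
    linarith
  -- total weight of `F`
  have h6 : wA F k = ∑ j, (lam j : ℝ) := by
    rw [← tot_sum lam]
    unfold wA
    refine finsum_congr fun l => ?_
    rw [hbF (l + 1)]
    have := tot_fin hbli {j | l + 1 ≤ lam j}
    rw [this]
    simp
  -- the eigenvalues of `W'` are nonnegative
  have h7 : ∀ j, 0 ≤ w' j := by
    intro i
    have e1 : (e' i : A) ∈ GW W' k ((0 : ℕ) : ℝ) := by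
      refine hFle k 0 ?_
      rw [hFF.zero]
      exact (e' i).2
    rw [heG'] at e1
    by_contra hcon
    push Not at hcon
    have e2 : i ∉ {j | ((0 : ℕ) : ℝ) ≤ w' j} := by
      simp only [Set.mem_ofPred_eq, Nat.cast_zero, not_le]
      exact hcon
    exact (hcoe heli').notMem_span_image e2 e1
  -- total weight of `GW W'`
  have h8 : wA (fun k l => GW W' k (l : ℝ)) k ≤ ∑ j, w' j := by
    have e1 : wA (fun k l => GW W' k (l : ℝ)) k = ∑ j, ((⌊w' j⌋₊ : ℕ) : ℝ) := by
      rw [← tot_sum fun j => ⌊w' j⌋₊]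
      unfold wA
      refine finsum_congr fun l => ?_
      change (Module.finrank ℂ (GW W' k ((l + 1 : ℕ) : ℝ)) : ℝ) = _
      rw [heG']
      have := tot_fin (hcoe heli') {j | ((l + 1 : ℕ) : ℝ) ≤ w' j}
      rw [this]
      congr 2
      ext j
      simp only [Set.mem_ofPred_eq, Finset.mem_filter, Finset.mem_univ, true_and]
      rw [Nat.le_floor_iff' (Nat.succ_ne_zero l)]
    rw [e1]
    exact Finset.sum_le_sum fun j _ => Nat.floor_le (h7 j)
  rw [h6]
  calc wA (fun k l => GW W' k (l : ℝ)) k ≤ ∑ j, w' j := h8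
    _ = ∑ j, w j + ∑ j, w'' j := ht
    _ ≤ (∑ j, (lam j : ℝ) + (δ / 2) * k * Module.finrank ℂ (E k)) +
        (δ / 2) * k * Module.finrank ℂ (E k) := by
          rw [h4]
          exact add_le_add h5 h3
    _ = _ := by ring

end Pool.Agent.Helper13.KP
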